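import Pool.Agent.Y916.Al.WinH

/-!
# Windows around algebraic points of bounded degree and of height at most a power of their absolute value
-/

set_option autoImplicit false

open Module

namespace Pool.Agent.Y916.Al

open Pool.Agent.Y916.Ari Pool.Agent.Y916.Om

/-- `ξ` is a root of a nonzero integer polynomial of degree at most `m` with coefficients of size at most `|ξ|^A` -/
def Ht (m A : ℕ) (ξ : ℂ) : Prop :=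
  ∃ p : Polynomial ℤ, p ≠ 0 ∧ p.natDegree ≤ m ∧ (∀ j, |(p.coeff j : ℝ)| ≤ ‖ξ‖ ^ A) ∧ Polynomial.aeval ξ p = 0

theorem windowP (r d δ τ A B m Ah : ℕ) : ∃ E : ℕ, 1 ≤ E ∧ ∀ (H : ℕ) (ξ : ℂ), ((H : ℝ) + 2) ^ E ≤ ‖ξ‖ → Ht m Ah ξ →
    ∀ (υ : Type) [Fintype υ] (w : υ → ℂ) (T : Finset υ), T.card = τ → Dom A B w T →
    ∃ S : Finset ℂ, S.card ≤ τ ∧ ∀ β : Fin r → ℂ, Function.Injective β → (∀ i, β i ∉ S ∧ β i ≠ 0 ∧ Adm d H (β i)) →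
      ∀ K : IntermediateField ℚ ℂ, FiniteDimensional ℚ K → finrank ℚ K ≤ d →
      ∀ l : Fin r → ℂ, (∀ i, ∃ a : K, a ≠ 0 ∧ l i - a * Complex.log (1 + β i / ξ) ∈
        Submodule.span K (insert 1 (Set.range w))) →
      ∀ P : MvPolynomial (υ ⊕ Fin r) K, P.totalDegree ≤ δ → MvPolynomial.aeval (Sum.elim w l) P = 0 →
      MvPolynomial.aeval (Sum.elim (fun j => MvPolynomial.C (w j)) MvPolynomial.X) P
        = (0 : MvPolynomial (Fin r) ℂ) := by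
  obtain ⟨E, hE⟩ := windowH r d δ τ A B m (2 * Ah + 2)
  refine ⟨E + 1, by omega, ?_⟩
  intro H ξ hξ hHt υ _ w T hT hD
  obtain ⟨p, hp0, hpd, hpY, hp⟩ := hHt
  have hH : (1 : ℝ) ≤ (H : ℝ) + 2 := by linarith [(Nat.cast_nonneg H : (0 : ℝ) ≤ H)]
  have hξ2 : (2 : ℝ) ≤ ‖ξ‖ := by
    refine le_trans ?_ hξ
    calc (2 : ℝ) ≤ (H : ℝ) + 2 := by linarith [(Nat.cast_nonneg H : (0 : ℝ) ≤ H)]
      _ ≤ _ := le_self_pow₀ hH (by omega)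
  obtain ⟨K₁, ξ', h1, h2, h3, h4⟩ := pt_root hp0 hpd hpY hp
  obtain ⟨S, hS, h⟩ := hE H K₁ ξ' (‖ξ‖ ^ Ah * (‖ξ‖ ^ Ah + 2)) h1 h2 h4 (by
    rw [h3]
    exact (pow_le_pow_right₀ hH (by omega)).trans hξ) (by
    rw [h3]
    have h5 : (1 : ℝ) ≤ ‖ξ‖ ^ Ah := one_le_pow₀ (by linarith)
    calc ‖ξ‖ ^ Ah * (‖ξ‖ ^ Ah + 2) ≤ ‖ξ‖ ^ Ah * (‖ξ‖ ^ Ah * ‖ξ‖ ^ 2) := by
          refine mul_le_mul_of_nonneg_left ?_ (by positivity)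
          have h6 : (4 : ℝ) ≤ ‖ξ‖ ^ 2 := by nlinarith
          have h7 : ‖ξ‖ ^ Ah * 4 ≤ ‖ξ‖ ^ Ah * ‖ξ‖ ^ 2 := mul_le_mul_of_nonneg_left h6 (by positivity)
          linarith
      _ = ‖ξ‖ ^ (2 * Ah + 2) := by ring) υ w T hT hD
  refine ⟨S, hS, ?_⟩
  rw [h3] at h
  exact h

end Pool.Agent.Y916.Al
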