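import Pool.Agent.Y113.G.Hd

/-!
# Values of power series with rational coefficients at complex numbers
-/

set_option autoImplicit false

open PowerSeries Finset.HasAntidiagonal

namespace Pool.Agent.Y916.Al

open Pool.Agent.Y113



/-- the value of a power series at `x` -/
noncomputable def evc (x : ℂ) (f : ℚ⟦X⟧) : ℂ := ∑' m : ℕ, ((coeff m f : ℚ) : ℂ) * x ^ m

/-- absolute convergence at `x` -/
def Cvc (x : ℂ) (f : ℚ⟦X⟧) : Prop := Summable fun m : ℕ => ‖((coeff m f : ℚ) : ℂ)‖ * ‖x‖ ^ m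

section
variable {x : ℂ}

lemma Cvc.norm {f : ℚ⟦X⟧} (hf : Cvc x f) : Summable fun m : ℕ => ‖((coeff m f : ℚ) : ℂ) * x ^ m‖ := by
  refine Summable.congr hf fun m => ?_
  rw [norm_mul, norm_pow]

lemma Cvc.summable {f : ℚ⟦X⟧} (hf : Cvc x f) : Summable fun m : ℕ => ((coeff m f : ℚ) : ℂ) * x ^ m :=
  hf.norm.of_norm

lemma Cvc.add {f g : ℚ⟦X⟧} (hf : Cvc x f) (hg : Cvc x g) : Cvc x (f + g) := by
  refine Summable.of_nonneg_of_le (fun m => by positivity) (fun m => ?_) (Summable.add hf hg)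
  rw [map_add, ← add_mul]
  push_cast
  exact mul_le_mul_of_nonneg_right (norm_add_le _ _) (by positivity)

lemma Cvc.mul {f g : ℚ⟦X⟧} (hf : Cvc x f) (hg : Cvc x g) : Cvc x (f * g) := by
  have h1 := summable_norm_sum_mul_antidiagonal_of_summable_norm (Cvc.norm hf) (Cvc.norm hg)
  refine Summable.of_nonneg_of_le (fun m => by positivity) (fun m => le_of_eq ?_) h1
  rw [coeff_mul]
  have h2 : ∑ p' ∈ antidiagonal m, ((coeff p'.1 f : ℚ) : ℂ) * x ^ p'.1 * (((coeff p'.2 g : ℚ) : ℂ) * x ^ p'.2) =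
      (((∑ p' ∈ antidiagonal m, coeff p'.1 f * coeff p'.2 g : ℚ)) : ℂ) * x ^ m := by
    rw [Rat.cast_sum, Finset.sum_mul]
    refine Finset.sum_congr rfl fun p' hp => ?_
    rw [Finset.HasAntidiagonal.mem_antidiagonal] at hp
    rw [← hp, pow_add]
    push_cast
    ring
  rw [h2, norm_mul, norm_pow]

lemma Cvc.ev_mul {f g : ℚ⟦X⟧} (hf : Cvc x f) (hg : Cvc x g) : evc x (f * g) = evc x f * evc x g := by
  unfold evc
  rw [tsum_mul_tsum_eq_tsum_sum_antidiagonal_of_summable_norm (Cvc.norm hf) (Cvc.norm hg)]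
  refine tsum_congr fun m => ?_
  rw [coeff_mul, Rat.cast_sum, Finset.sum_mul]
  refine Finset.sum_congr rfl fun p' hp => ?_
  rw [Finset.HasAntidiagonal.mem_antidiagonal] at hp
  rw [← hp, pow_add]
  push_cast
  ring

lemma Cvc.ev_add {f g : ℚ⟦X⟧} (hf : Cvc x f) (hg : Cvc x g) : evc x (f + g) = evc x f + evc x g := by
  unfold evc
  rw [← Summable.tsum_add (Cvc.summable hf) (Cvc.summable hg)]
  refine tsum_congr fun m => ?_
  rw [map_add]
  push_cast
  ring

lemma Cvc.coe (P : Polynomial ℚ) : Cvc x (P : ℚ⟦X⟧) := by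
  refine summable_of_ne_finset_zero (s := Finset.range (P.natDegree + 1)) fun m hm => ?_
  rw [Finset.mem_range, not_lt] at hm
  rw [Polynomial.coeff_coe, Polynomial.coeff_eq_zero_of_natDegree_lt (by omega)]
  simp

lemma ev_coe (P : Polynomial ℚ) : evc x (P : ℚ⟦X⟧) = Polynomial.aeval x P := by
  unfold evc
  rw [tsum_eq_sum (s := Finset.range (P.natDegree + 1)), Polynomial.aeval_eq_sum_range]
  · refine Finset.sum_congr rfl fun m _ => ?_
    rw [Polynomial.coeff_coe, Algebra.smul_def]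
    rfl
  · intro m hm
    rw [Finset.mem_range, not_lt] at hm
    rw [Polynomial.coeff_coe, Polynomial.coeff_eq_zero_of_natDegree_lt (by omega)]
    simp

lemma Cvc.C (c : ℚ) : Cvc x (C c) := by
  rw [← Polynomial.coe_C]; exact Cvc.coe _

lemma ev_C (c : ℚ) : evc x (C c) = c := by
  rw [← Polynomial.coe_C, ev_coe]; simp

lemma Cvc.one : Cvc x (1 : ℚ⟦X⟧) := by
  rw [← map_one (PowerSeries.C (R := ℚ))]; exact Cvc.C _

lemma ev_one : evc x (1 : ℚ⟦X⟧) = 1 := by
  rw [← map_one (PowerSeries.C (R := ℚ)), ev_C]; simp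

lemma Cvc.zero : Cvc x (0 : ℚ⟦X⟧) := by
  rw [← map_zero (PowerSeries.C (R := ℚ))]; exact Cvc.C _

lemma ev_zero : evc x (0 : ℚ⟦X⟧) = 0 := by
  rw [← map_zero (PowerSeries.C (R := ℚ)), ev_C]; simp

lemma Cvc.sum {σ : Type*} (s : Finset σ) (f : σ → ℚ⟦X⟧) (hf : ∀ i ∈ s, Cvc x (f i)) : Cvc x (∑ i ∈ s, f i) := by
  classical
  induction s using Finset.induction_on with
  | empty => simpa using Cvc.zero
  | insert a s ha ih =>
    rw [Finset.sum_insert ha]
    exact (hf a (Finset.mem_insert_self _ _)).add (ih fun i hi => hf i (Finset.mem_insert_of_mem hi))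

lemma Cvc.ev_sum {σ : Type*} (s : Finset σ) (f : σ → ℚ⟦X⟧) (hf : ∀ i ∈ s, Cvc x (f i)) :
    evc x (∑ i ∈ s, f i) = ∑ i ∈ s, evc x (f i) := by
  classical
  induction s using Finset.induction_on with
  | empty => simpa using ev_zero
  | insert a s ha ih =>
    rw [Finset.sum_insert ha, Finset.sum_insert ha, (hf a (Finset.mem_insert_self _ _)).ev_add
      (Cvc.sum s f fun i hi => hf i (Finset.mem_insert_of_mem hi)), ih fun i hi => hf i (Finset.mem_insert_of_mem hi)]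

lemma Cvc.pow {f : ℚ⟦X⟧} (hf : Cvc x f) (n : ℕ) : Cvc x (f ^ n) := by
  induction n with
  | zero => simpa using Cvc.one
  | succ n ih => rw [pow_succ]; exact ih.mul hf

lemma Cvc.ev_pow {f : ℚ⟦X⟧} (hf : Cvc x f) (n : ℕ) : evc x (f ^ n) = evc x f ^ n := by
  induction n with
  | zero => simpa using ev_one
  | succ n ih => rw [pow_succ, pow_succ, (hf.pow n).ev_mul hf, ih]

lemma Cvc.prod {σ : Type*} (s : Finset σ) (f : σ → ℚ⟦X⟧) (hf : ∀ i ∈ s, Cvc x (f i)) : Cvc x (∏ i ∈ s, f i) := by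
  classical
  induction s using Finset.induction_on with
  | empty => simpa using Cvc.one
  | insert a s ha ih =>
    rw [Finset.prod_insert ha]
    exact (hf a (Finset.mem_insert_self _ _)).mul (ih fun i hi => hf i (Finset.mem_insert_of_mem hi))

lemma Cvc.ev_prod {σ : Type*} (s : Finset σ) (f : σ → ℚ⟦X⟧) (hf : ∀ i ∈ s, Cvc x (f i)) :
    evc x (∏ i ∈ s, f i) = ∏ i ∈ s, evc x (f i) := by
  classical
  induction s using Finset.induction_on with
  | empty => simpa using ev_one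
  | insert a s ha ih =>
    rw [Finset.prod_insert ha, Finset.prod_insert ha, (hf a (Finset.mem_insert_self _ _)).ev_mul
      (Cvc.prod s f fun i hi => hf i (Finset.mem_insert_of_mem hi)), ih fun i hi => hf i (Finset.mem_insert_of_mem hi)]

/-- criterion for convergence -/
lemma Cvc.of_bound {f : ℚ⟦X⟧} {A B : ℝ} (hB : 0 ≤ B) (hBx : B * ‖x‖ < 1)
    (hf : ∀ m, ‖((coeff m f : ℚ) : ℂ)‖ ≤ A * B ^ m) : Cvc x f := by
  have h1 : Summable fun m : ℕ => A * (B * ‖x‖) ^ m :=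
    (summable_geometric_of_lt_one (by positivity) hBx).mul_left A
  refine Summable.of_nonneg_of_le (fun m => by positivity) (fun m => ?_) h1
  calc ‖((coeff m f : ℚ) : ℂ)‖ * ‖x‖ ^ m ≤ A * B ^ m * ‖x‖ ^ m :=
        mul_le_mul_of_nonneg_right (hf m) (by positivity)
    _ = A * (B * ‖x‖) ^ m := by rw [mul_assoc, ← mul_pow]

/-- the value of a divided derivative of a series with high order of vanishing -/
lemma ev_hd_bound' {f : ℚ⟦X⟧} {A B : ℝ} (hA : 0 ≤ A) (hB : 1 ≤ B) (hBx : 2 * B * ‖x‖ ≤ 1)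
    {m₀ k : ℕ} (hf : ∀ m, ‖((coeff m (hd k f) : ℚ) : ℂ)‖ ≤ A * B ^ (m + k)) (hk : k ≤ m₀)
    (h0 : ∀ l < m₀, coeff l f = 0) :
    Cvc x (hd k f) ∧ ‖evc x (hd k f)‖ ≤ 2 * (A * (2 * B) ^ m₀ * ‖x‖ ^ (m₀ - k)) := by
  have hb : ∀ m, ‖((coeff m (hd k f) : ℚ) : ℂ)‖ * ‖x‖ ^ m ≤
      A * (2 * B) ^ m₀ * ‖x‖ ^ (m₀ - k) * (1 / 2) ^ m := by
    intro m
    rcases lt_or_ge (m + k) m₀ with h | h
    · rw [coeff_hd, h0 _ h]
      simp only [mul_zero, Rat.cast_zero, norm_zero, zero_mul]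
      positivity
    · have h1 := hf m
      obtain ⟨r, hr⟩ : ∃ r, m = (m₀ - k) + r := ⟨m - (m₀ - k), by omega⟩
      have hmk : m + k = m₀ + r := by omega
      calc ‖((coeff m (hd k f) : ℚ) : ℂ)‖ * ‖x‖ ^ m
          ≤ A * B ^ (m + k) * ‖x‖ ^ m := mul_le_mul_of_nonneg_right h1 (by positivity)
        _ = A * B ^ m₀ * ‖x‖ ^ (m₀ - k) * (B * ‖x‖) ^ r := by
            rw [hmk, hr, pow_add, pow_add, mul_pow B]; ring
        _ ≤ A * B ^ m₀ * ‖x‖ ^ (m₀ - k) * (1 / 2) ^ r := by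
            apply mul_le_mul_of_nonneg_left _ (by positivity)
            apply pow_le_pow_left₀ (by positivity)
            linarith
        _ ≤ A * (2 * B) ^ m₀ * ‖x‖ ^ (m₀ - k) * (1 / 2) ^ m := by
            have h3 : B ^ m₀ * (1 / 2) ^ r ≤ (2 * B) ^ m₀ * (1 / 2) ^ m := by
              have h4 : (2 * B) ^ m₀ * (1 / 2) ^ m = B ^ m₀ * (1 / 2) ^ r * (2 ^ m₀ * (1 / 2) ^ (m₀ - k)) := by
                rw [mul_pow 2, hr, pow_add]; ring
              rw [h4]
              refine le_mul_of_one_le_right (by positivity) ?_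
              have h5 : (2 : ℝ) ^ m₀ = 2 ^ (m₀ - k) * 2 ^ k := by rw [← pow_add]; congr 1; omega
              rw [h5]
              have h6 : (2 : ℝ) ^ (m₀ - k) * 2 ^ k * (1 / 2) ^ (m₀ - k) = 2 ^ k := by
                rw [one_div, inv_pow]
                field_simp
              rw [h6]
              exact one_le_pow₀ (by norm_num)
            have h7 : A * B ^ m₀ * ‖x‖ ^ (m₀ - k) * (1 / 2) ^ r =
                A * ‖x‖ ^ (m₀ - k) * (B ^ m₀ * (1 / 2) ^ r) := by ring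
            have h8 : A * (2 * B) ^ m₀ * ‖x‖ ^ (m₀ - k) * (1 / 2) ^ m =
                A * ‖x‖ ^ (m₀ - k) * ((2 * B) ^ m₀ * (1 / 2) ^ m) := by ring
            rw [h7, h8]
            exact mul_le_mul_of_nonneg_left h3 (by positivity)
  have hs : Summable fun m : ℕ => A * (2 * B) ^ m₀ * ‖x‖ ^ (m₀ - k) * (1 / 2 : ℝ) ^ m :=
    summable_geometric_two.mul_left _
  have hcv : Cvc x (hd k f) := Summable.of_nonneg_of_le (fun m => by positivity) hb hs
  refine ⟨hcv, ?_⟩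
  have h9 : ‖evc x (hd k f)‖ ≤ ∑' m : ℕ, A * (2 * B) ^ m₀ * ‖x‖ ^ (m₀ - k) * (1 / 2 : ℝ) ^ m := by
    unfold evc
    refine tsum_of_norm_bounded hs.hasSum fun m => ?_
    rw [norm_mul, norm_pow]
    exact hb m
  rw [tsum_mul_left, tsum_geometric_two] at h9
  linarith

/-- the value of a divided derivative of a series with high order of vanishing -/
lemma ev_hd_bound {f : ℚ⟦X⟧} {A B : ℝ} (hA : 0 ≤ A) (hB : 1 ≤ B) (hBx : 4 * B * ‖x‖ ≤ 1)
    (hf : ∀ m, |((coeff m f : ℚ) : ℝ)| ≤ A * B ^ m) {m₀ k : ℕ} (hk : k ≤ m₀) (h0 : ∀ l < m₀, coeff l f = 0) :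
    Cvc x (hd k f) ∧ ‖evc x (hd k f)‖ ≤ 2 * (A * (4 * B) ^ m₀ * ‖x‖ ^ (m₀ - k)) := by
  have h1 := ev_hd_bound' (x := x) (f := f) (A := A) (B := 2 * B) (m₀ := m₀) (k := k) hA (by linarith) (by linarith) (by
    intro m
    rw [coeff_hd]
    push_cast
    rw [norm_mul, Complex.norm_natCast, Complex.norm_ratCast]
    have h2 : (((m + k).choose k : ℕ) : ℝ) ≤ 2 ^ (m + k) := by exact_mod_cast Nat.choose_le_two_pow _ _
    calc (((m + k).choose k : ℕ) : ℝ) * |((coeff (m + k) f : ℚ) : ℝ)| ≤ 2 ^ (m + k) * (A * B ^ (m + k)) :=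
          mul_le_mul h2 (hf _) (abs_nonneg _) (by positivity)
      _ = A * (2 * B) ^ (m + k) := by rw [mul_pow]; ring) hk h0
  rw [show 2 * (2 * B) = 4 * B by ring] at h1
  exact h1

end

end Pool.Agent.Y916.Al
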