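import Pool.Agent.Y113.W.Count

/-!
# Counting on a line and in tuples
-/

set_option autoImplicit false

open Module

namespace Pool.Agent.Y916.Al

open Pool.Agent.Y113

open Classical in
/-- few bad points in short windows of a line in the complex plane give few bad points -/
theorem line_count (M E : ℕ) : ∃ c : ℝ, 0 < c ∧ c < 1 ∧ ∃ C : ℝ, 0 ≤ C ∧ ∀ (T : ℕ), 1 ≤ T → ∀ (z : ℂ), ‖z‖ ≤ T →
    ∀ B : ℤ → Prop, (∀ (ε : ℤ), (ε = 1 ∨ ε = -1) → ∀ (H : ℕ) (t : ℤ), |t| ≤ 10 * T → (T : ℝ) ≤ ‖z + t‖ ^ 4 →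
      ((H : ℝ) + 2) ^ E ≤ ‖z + t‖ → ∀ S : Finset ℕ, (∀ g ∈ S, g ≤ H ∧ B (t - ε * g)) → S.card ≤ M) →
    (((Finset.Icc (-(T : ℤ)) T).filter B).card : ℝ) ≤ C * (T : ℝ) ^ (1 - c) := by
  obtain ⟨c₀, hc₀, hc₀1, C₀, hC₀, h₀⟩ := count_windows M (E + 2)
  set c : ℝ := min c₀ (1 / 2) with hc
  have hcpos : 0 < c := lt_min hc₀ (by norm_num)
  have hc1 : c < 1 := (min_le_left _ _).trans_lt hc₀1
  refine ⟨c, hcpos, hc1, 2 * (C₀ * 4) + 7, by positivity, fun T hT z hz B hB => ?_⟩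
  have hT1 : (1 : ℝ) ≤ T := by exact_mod_cast hT
  have hT0 : (0 : ℝ) < T := by linarith
  set t₀ : ℤ := -round z.re with ht₀
  have hre : |z.re + t₀| ≤ 1 / 2 := by
    have h1 := abs_sub_round z.re
    rw [ht₀]
    push_cast
    exact h1
  have ht₀T : |t₀| ≤ T + 1 := by
    have h1 : |z.re| ≤ T := (Complex.abs_re_le_norm z).trans hz
    have h2 : |(t₀ : ℝ)| ≤ T + 1 / 2 := by
      have h3 : (t₀ : ℝ) = (z.re + t₀) - z.re := by ring
      rw [h3]
      refine (abs_sub _ _).trans ?_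
      linarith
    have h3 : |(t₀ : ℝ)| < (T : ℝ) + 1 + 1 := by linarith
    have h4 : |t₀| < (T : ℤ) + 1 + 1 := by
      have h5 : ((|t₀| : ℤ) : ℝ) < (((T : ℤ) + 1 + 1 : ℤ) : ℝ) := by push_cast; exact h3
      exact_mod_cast h5
    omega
  -- size of `z + t`
  have hsize : ∀ (ε : ℤ), (ε = 1 ∨ ε = -1) → ∀ s : ℕ, 1 ≤ s → (s : ℝ) / 2 ≤ ‖z + ((t₀ + ε * s : ℤ) : ℂ)‖ := by
    intro ε hε s hs
    have hs1 : (1 : ℝ) ≤ s := by exact_mod_cast hs
    have h1 : |(z + ((t₀ + ε * s : ℤ) : ℂ)).re| ≤ ‖z + ((t₀ + ε * s : ℤ) : ℂ)‖ := Complex.abs_re_le_norm _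
    have h2 : (z + ((t₀ + ε * s : ℤ) : ℂ)).re = (z.re + t₀) + ε * s := by
      simp only [Complex.add_re, Complex.intCast_re]
      push_cast
      ring
    rw [h2] at h1
    refine le_trans ?_ h1
    have h3 : |(ε : ℝ) * s| = s := by
      rcases hε with rfl | rfl
      · simp
      · simp
    have h4 : |(ε : ℝ) * s| ≤ |(z.re + t₀) + ε * s| + |z.re + t₀| := by
      have h5 : (ε : ℝ) * s = ((z.re + t₀) + ε * s) - (z.re + t₀) := by ring
      calc |(ε : ℝ) * s| = |((z.re + t₀) + ε * s) - (z.re + t₀)| := by rw [← h5]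
        _ ≤ _ := abs_sub _ _
    rw [h3] at h4
    linarith
  obtain ⟨Bε, hBε⟩ : ∃ Bε : ℤ → ℕ → Prop, ∀ ε s, Bε ε s ↔ (B (t₀ + ε * s) ∧ T ≤ s ^ 2 ∧ s ≤ 4 * T) :=
    ⟨_, fun _ _ => Iff.rfl⟩
  have hcount : ∀ ε : ℤ, (ε = 1 ∨ ε = -1) → (((Finset.Icc 2 (4 * T)).filter (Bε ε)).card : ℝ) ≤ C₀ * 4 * (T : ℝ) ^ (1 - c) := by
    intro ε hε
    have h1 := h₀ (Bε ε) (by
      intro H s hHs S hS
      rcases S.eq_empty_or_nonempty with rfl | ⟨g₀, hg₀⟩
      · simp
      obtain ⟨hg₀H, hg₀'⟩ := hS g₀ hg₀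
      obtain ⟨-, hg₀1, hg₀2⟩ := (hBε _ _).1 hg₀'
      have hH2 : (H + 2) ^ 2 ≤ s := (Nat.pow_le_pow_right (by omega) (by omega)).trans hHs
      have hHs' : 2 * H + 4 ≤ s := by nlinarith
      have hs1 : 1 ≤ s := by omega
      have hs8 : s ≤ 8 * T := by omega
      refine hB ε hε H (t₀ + ε * s) ?_ ?_ ?_ S ?_
      · have h2 : |ε * (s : ℤ)| = s := by
          rcases hε with rfl | rfl <;> simp
        calc |t₀ + ε * s| ≤ |t₀| + |ε * (s : ℤ)| := abs_add_le _ _
          _ ≤ (T + 1) + 8 * T := by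
              rw [h2]
              have : (s : ℤ) ≤ 8 * T := by exact_mod_cast hs8
              omega
          _ ≤ 10 * T := by
              have : (1 : ℤ) ≤ T := by exact_mod_cast hT
              omega
      · have h2 := hsize ε hε s hs1
        have h3 : (T : ℝ) ≤ (s : ℝ) ^ 2 := by
          have h4 : T ≤ s ^ 2 := hg₀1.trans (Nat.pow_le_pow_left (Nat.sub_le _ _) _)
          exact_mod_cast h4
        have h4 : (4 : ℝ) ≤ s := by
          have : 4 ≤ s := by omega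
          exact_mod_cast this
        calc (T : ℝ) ≤ (s : ℝ) ^ 2 := h3
          _ ≤ ((s : ℝ) / 2) ^ 4 := by
              have h5 : ((s : ℝ) / 2) ^ 4 = (s : ℝ) ^ 2 * ((s : ℝ) ^ 2 / 16) := by ring
              rw [h5]
              refine le_mul_of_one_le_right (by positivity) ?_
              rw [le_div_iff₀ (by norm_num)]
              nlinarith
          _ ≤ _ := pow_le_pow_left₀ (by positivity) h2 4
      · have h2 := hsize ε hε s hs1
        refine le_trans ?_ h2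
        rw [le_div_iff₀ (by norm_num)]
        have h3 : (H + 2) ^ E * 2 ≤ s := by
          calc (H + 2) ^ E * 2 ≤ (H + 2) ^ E * (H + 2) ^ 2 := by
                refine Nat.mul_le_mul_left _ ?_
                nlinarith
            _ = (H + 2) ^ (E + 2) := by rw [pow_add]
            _ ≤ s := hHs
        exact_mod_cast h3
      · intro g hg
        obtain ⟨hgH, hgB'⟩ := hS g hg
        obtain ⟨hgB, -, -⟩ := (hBε _ _).1 hgB'
        refine ⟨hgH, ?_⟩
        have h2 : t₀ + ε * s - ε * g = t₀ + ε * ((s - g : ℕ) : ℤ) := by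
          rw [Nat.cast_sub (by omega)]
          ring
        rw [h2]
        exact hgB) (4 * T) (by omega)
    refine h1.trans ?_
    rw [mul_assoc]
    refine mul_le_mul_of_nonneg_left ?_ hC₀
    push_cast
    rw [Real.mul_rpow (by norm_num) hT0.le]
    refine mul_le_mul ?_ (Real.rpow_le_rpow_of_exponent_le hT1 (by linarith [min_le_left c₀ (1 / 2)])) (by positivity)
      (by norm_num)
    calc (4 : ℝ) ^ (1 - c₀) ≤ 4 ^ (1 : ℝ) := Real.rpow_le_rpow_of_exponent_le (by norm_num) (by linarith)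
      _ = 4 := Real.rpow_one 4
  set ρ : ℕ := Nat.sqrt T + 1 with hρ
  have hsub : (Finset.Icc (-(T : ℤ)) T).filter B ⊆
      (Finset.Icc (t₀ - ρ) (t₀ + ρ)) ∪ ((((Finset.Icc 2 (4 * T)).filter (Bε 1)).image fun s : ℕ => t₀ + 1 * (s : ℤ)) ∪
      (((Finset.Icc 2 (4 * T)).filter (Bε (-1))).image fun s : ℕ => t₀ + (-1) * (s : ℤ))) := by
    intro n hn
    obtain ⟨hn1, hn2⟩ := Finset.mem_filter.1 hn
    rw [Finset.mem_Icc] at hn1
    by_cases hsmall : |n - t₀| ≤ ρ
    · refine Finset.mem_union_left _ (Finset.mem_Icc.2 ?_)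
      rw [abs_le] at hsmall
      constructor <;> linarith [hsmall.1, hsmall.2]
    · refine Finset.mem_union_right _ ?_
      push Not at hsmall
      rw [Int.abs_eq_natAbs] at hsmall
      have hTZ : (1 : ℤ) ≤ T := by exact_mod_cast hT
      have hs4 : (n - t₀).natAbs ≤ 4 * T := by
        have h1 := abs_le.1 ht₀T
        omega
      have hsρ : ρ < (n - t₀).natAbs := by omega
      have hsT : T ≤ (n - t₀).natAbs ^ 2 := by
        have h2 : T < ρ * ρ := by
          rw [hρ]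
          exact Nat.lt_succ_sqrt T
        nlinarith
      have hs2 : 2 ≤ (n - t₀).natAbs := by omega
      rcases le_total 0 (n - t₀) with h0 | h0
      · have h1 : t₀ + 1 * ((n - t₀).natAbs : ℤ) = n := by omega
        refine Finset.mem_union_left _ (Finset.mem_image.2 ⟨(n - t₀).natAbs, Finset.mem_filter.2
          ⟨Finset.mem_Icc.2 ⟨hs2, hs4⟩, (hBε _ _).2 ⟨?_, hsT, hs4⟩⟩, h1⟩)
        rw [h1]; exact hn2
      · have h1 : t₀ + (-1) * ((n - t₀).natAbs : ℤ) = n := by omega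
        refine Finset.mem_union_right _ (Finset.mem_image.2 ⟨(n - t₀).natAbs, Finset.mem_filter.2
          ⟨Finset.mem_Icc.2 ⟨hs2, hs4⟩, (hBε _ _).2 ⟨?_, hsT, hs4⟩⟩, h1⟩)
        rw [h1]; exact hn2
  have hcard : (((Finset.Icc (-(T : ℤ)) T).filter B).card : ℝ) ≤ ((2 * ρ + 1 : ℕ) : ℝ) +
      ((((Finset.Icc 2 (4 * T)).filter (Bε 1)).card : ℝ) + (((Finset.Icc 2 (4 * T)).filter (Bε (-1))).card : ℝ)) := by
    have h1 : ((Finset.Icc (-(T : ℤ)) T).filter B).card ≤ (2 * ρ + 1) +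
        (((Finset.Icc 2 (4 * T)).filter (Bε 1)).card + ((Finset.Icc 2 (4 * T)).filter (Bε (-1))).card) := by
      refine (Finset.card_le_card hsub).trans ((Finset.card_union_le _ _).trans (add_le_add ?_
        ((Finset.card_union_le _ _).trans (add_le_add Finset.card_image_le Finset.card_image_le))))
      rw [Int.card_Icc]
      omega
    exact_mod_cast h1
  have hhalf : (T : ℝ) ^ (1 / 2 : ℝ) ≤ (T : ℝ) ^ (1 - c) :=
    Real.rpow_le_rpow_of_exponent_le hT1 (by linarith [min_le_right c₀ (1 / 2)])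
  have hTc : (1 : ℝ) ≤ (T : ℝ) ^ (1 - c) := Real.one_le_rpow hT1 (by linarith)
  have hρb : ((2 * ρ + 1 : ℕ) : ℝ) ≤ 7 * (T : ℝ) ^ (1 - c) := by
    have h1 : ((Nat.sqrt T : ℕ) : ℝ) ≤ (T : ℝ) ^ (1 / 2 : ℝ) := by
      rw [← Real.sqrt_eq_rpow]
      refine Real.le_sqrt_of_sq_le ?_
      have h2 : Nat.sqrt T ^ 2 ≤ T := by rw [pow_two]; exact Nat.sqrt_le T
      exact_mod_cast h2
    rw [hρ]
    push_cast
    linarith
  have h1 := hcount 1 (Or.inl rfl)
  have h2 := hcount (-1) (Or.inr rfl)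
  refine hcard.trans ?_
  rw [add_mul]
  linarith

open Classical in
/-- few bad tuples -/
theorem tuples_count {ι σ : Type} [Fintype σ] (pts : ℕ → Finset ι) (x : ι → σ → ℂ) (m : ℕ) (C₀ : ℝ) (hC₀ : 0 ≤ C₀)
    (hpts : ∀ T : ℕ, 1 ≤ T → ((pts T).card : ℝ) ≤ C₀ * (T : ℝ) ^ m)
    (hbad : ∀ δ D : ℕ, ∃ c : ℝ, 0 < c ∧ ∃ C : ℝ, 0 ≤ C ∧ ∀ (V : Submodule ℚ ℂ), Module.Finite ℚ V →
      Module.finrank ℚ V ≤ D → ∀ T : ℕ, 1 ≤ T → (((pts T).filter fun n => Rel δ V (x n)).card : ℝ) ≤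
        C * (T : ℝ) ^ ((m : ℝ) - c))
    (δ k : ℕ) : ∀ D : ℕ, ∃ c : ℝ, 0 < c ∧ ∃ C : ℝ, 0 ≤ C ∧ ∀ V : Submodule ℚ ℂ, Module.Finite ℚ V →
      Module.finrank ℚ V ≤ D → ∀ T : ℕ, 1 ≤ T →
      (((Fintype.piFinset fun _ : Fin k => pts T).filter fun t =>
        Rel δ V (fun p : Fin k × σ => x (t p.1) p.2)).card : ℝ) ≤ C * (T : ℝ) ^ (((k * m : ℕ) : ℝ) - c) := by
  induction k with
  | zero =>
    intro D
    refine ⟨1, one_pos, 0, le_rfl, fun V _ _ T _ => ?_⟩
    rw [Finset.filter_false_of_mem, Finset.card_empty]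
    · simp
    · rintro t _ ⟨P, hP0, -, -, hPv⟩
      obtain ⟨a, rfl⟩ : ∃ a, P = MvPolynomial.C a := ⟨_, MvPolynomial.eq_C_of_isEmpty P⟩
      rw [MvPolynomial.aeval_C] at hPv
      apply hP0
      have : a = 0 := hPv
      rw [this, map_zero]
  | succ k ih =>
    intro D
    obtain ⟨c₁, hc₁, C₁, hC₁, h₁⟩ := ih D
    obtain ⟨c₂, hc₂, C₂, hC₂, h₂⟩ := hbad δ (D * (k * Fintype.card σ + 1) ^ δ)
    refine ⟨min c₁ c₂, lt_min hc₁ hc₂, C₀ * C₁ + C₀ ^ k * C₂, by positivity, fun V hV hVD T hT => ?_⟩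
    have hT1 : (1 : ℝ) ≤ T := by exact_mod_cast hT
    have hT0 : (0 : ℝ) < T := by linarith
    set tp : (Fin k → ι) → Fin k × σ → ℂ := fun t p => x (t p.1) p.2 with htp
    set bad₁ := (Fintype.piFinset fun _ : Fin k => pts T).filter fun t => Rel δ V (tp t) with hbad₁
    set bad₂ : (Fin k → ι) → Finset ι := fun t => (pts T).filter fun n => Rel δ (V * (sp (tp t)) ^ δ) (x n) with hbad₂
    have hsub : ((Fintype.piFinset fun _ : Fin (k + 1) => pts T).filter fun t =>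
        Rel δ V (fun p : Fin (k + 1) × σ => x (t p.1) p.2)) ⊆
        ((pts T ×ˢ bad₁).image fun p => (Fin.cons p.1 p.2 : Fin (k + 1) → ι)) ∪
        (((Fintype.piFinset fun _ : Fin k => pts T).sigma bad₂).image
          fun p => (Fin.cons p.2 p.1 : Fin (k + 1) → ι)) := by
      intro t ht
      obtain ⟨ht1, ht2⟩ := Finset.mem_filter.1 ht
      rw [Fintype.mem_piFinset] at ht1
      set e : Fin k × σ ⊕ σ ≃ Fin (k + 1) × σ :=
        { toFun := Sum.elim (fun p => (p.1.succ, p.2)) (fun s => (0, s))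
          invFun := fun p => Fin.cases (Sum.inr p.2) (fun i => Sum.inl (i, p.2)) p.1
          left_inv := by rintro (⟨i, s⟩ | s) <;> simp
          right_inv := by
            rintro ⟨i, s⟩
            refine Fin.cases ?_ (fun i => ?_) i <;> simp } with he
      have h3 := ht2.reindex e
      have h4 : (fun j => x (t (e j).1) (e j).2) = Sum.elim (tp fun i => t i.succ) (x (t 0)) := by
        funext j
        rcases j with ⟨i, s⟩ | s
        · rfl
        · rfl
      rw [h4] at h3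
      have htail : (fun i => t i.succ) ∈ Fintype.piFinset fun _ : Fin k => pts T := by
        rw [Fintype.mem_piFinset]
        exact fun i => ht1 i.succ
      rcases h3.split with h5 | h5
      · refine Finset.mem_union_left _ (Finset.mem_image.2 ⟨(t 0, fun i => t i.succ), ?_, ?_⟩)
        · exact Finset.mem_product.2 ⟨ht1 0, Finset.mem_filter.2 ⟨htail, h5⟩⟩
        · funext i
          refine Fin.cases ?_ (fun i => ?_) i <;> simp
      · refine Finset.mem_union_right _ (Finset.mem_image.2 ⟨⟨fun i => t i.succ, t 0⟩, ?_, ?_⟩)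
        · exact Finset.mem_sigma.2 ⟨htail, Finset.mem_filter.2 ⟨ht1 0, h5⟩⟩
        · funext i
          refine Fin.cases ?_ (fun i => ?_) i <;> simp
    have hcard : (((Fintype.piFinset fun _ : Fin (k + 1) => pts T).filter fun t =>
        Rel δ V (fun p : Fin (k + 1) × σ => x (t p.1) p.2)).card : ℝ) ≤
        (C₀ * (T : ℝ) ^ m) * (C₁ * (T : ℝ) ^ (((k * m : ℕ) : ℝ) - c₁)) + (C₀ * (T : ℝ) ^ m) ^ k * (C₂ * (T : ℝ) ^ ((m : ℝ) - c₂)) := by
      have h3 : (((Fintype.piFinset fun _ : Fin (k + 1) => pts T).filter fun t =>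
          Rel δ V (fun p : Fin (k + 1) × σ => x (t p.1) p.2)).card : ℝ) ≤
          ((pts T ×ˢ bad₁).card : ℝ) + (((Fintype.piFinset fun _ : Fin k => pts T).sigma bad₂).card : ℝ) := by
        exact_mod_cast (Finset.card_le_card hsub).trans ((Finset.card_union_le _ _).trans
          (add_le_add Finset.card_image_le Finset.card_image_le))
      refine h3.trans (add_le_add ?_ ?_)
      · rw [Finset.card_product, Nat.cast_mul]
        exact mul_le_mul (hpts T hT) (h₁ V hV hVD T hT) (by positivity) (by positivity)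
      · rw [Finset.card_sigma, Nat.cast_sum]
        have h4 : ∀ t ∈ Fintype.piFinset (fun _ : Fin k => pts T), ((bad₂ t).card : ℝ) ≤ C₂ * (T : ℝ) ^ ((m : ℝ) - c₂) := by
          intro t _
          obtain ⟨hs1, hs2⟩ := sp_fin (tp t)
          obtain ⟨hp1, hp2⟩ := finrank_pow_le (sp (tp t)) δ
          obtain ⟨hq1, hq2⟩ := finrank_mul_le V ((sp (tp t)) ^ δ)
          refine h₂ (V * (sp (tp t)) ^ δ) hq1 (hq2.trans ?_) T hT
          refine Nat.mul_le_mul hVD (hp2.trans (Nat.pow_le_pow_left (hs2.trans ?_) _))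
          rw [Fintype.card_prod, Fintype.card_fin]
        refine (Finset.sum_le_card_nsmul _ _ _ h4).trans ?_
        rw [nsmul_eq_mul, Fintype.card_piFinset]
        simp only [Finset.prod_const, Finset.card_univ, Fintype.card_fin]
        rw [Nat.cast_pow]
        refine mul_le_mul_of_nonneg_right ?_ (by positivity)
        exact pow_le_pow_left₀ (by positivity) (hpts T hT) _
    refine hcard.trans ?_
    have e1 : (C₀ * (T : ℝ) ^ m) * (C₁ * (T : ℝ) ^ (((k * m : ℕ) : ℝ) - c₁)) =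
        C₀ * C₁ * (T : ℝ) ^ ((((k + 1) * m : ℕ) : ℝ) - c₁) := by
      have : ((((k + 1) * m : ℕ) : ℝ) - c₁) = (m : ℝ) + (((k * m : ℕ) : ℝ) - c₁) := by push_cast; ring
      rw [this, Real.rpow_add hT0, Real.rpow_natCast]
      ring
    have e2 : (C₀ * (T : ℝ) ^ m) ^ k * (C₂ * (T : ℝ) ^ ((m : ℝ) - c₂)) =
        C₀ ^ k * C₂ * (T : ℝ) ^ ((((k + 1) * m : ℕ) : ℝ) - c₂) := by
      have : ((((k + 1) * m : ℕ) : ℝ) - c₂) = ((m * k : ℕ) : ℝ) + ((m : ℝ) - c₂) := by push_cast; ring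
      rw [this, Real.rpow_add hT0, Real.rpow_natCast, mul_pow, ← pow_mul]
      ring
    rw [e1, e2, add_mul (C₀ * C₁)]
    refine add_le_add (mul_le_mul_of_nonneg_left ?_ (mul_nonneg hC₀ hC₁))
      (mul_le_mul_of_nonneg_left ?_ (mul_nonneg (pow_nonneg hC₀ k) hC₂))
    · exact Real.rpow_le_rpow_of_exponent_le hT1 (by linarith [min_le_left c₁ c₂])
    · exact Real.rpow_le_rpow_of_exponent_le hT1 (by linarith [min_le_right c₁ c₂])

end Pool.Agent.Y916.Al
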