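import Pool.Agent.Y916.Al.Stm
import Pool.Agent.Y921.PW.Arch
import Pool.Agent.Y113.G.Final
import Pool.Agent.Y708.AL.Det

/-!
# G-systems at algebraic points: the estimate for one value of the parameter
-/

set_option autoImplicit false

open PowerSeries Finset.HasAntidiagonal

namespace Pool.Agent.Y916.Al

open Pool.Agent.Y113

section Maps

variable {F : Type} [Field F] [Algebra ℚ F]

lemma hdF_map (s : ℕ) (f : ℚ⟦X⟧) :
    hdF s (PowerSeries.map (algebraMap ℚ F) f) = PowerSeries.map (algebraMap ℚ F) (hd s f) := by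
  ext m
  rw [hdF, PowerSeries.coeff_mk, PowerSeries.coeff_map, PowerSeries.coeff_map, coeff_hd, map_mul, map_natCast]

lemma map_ps (Q : Polynomial ℤ) :
    PowerSeries.map (algebraMap ℚ F) (ps Q) = ((Q.map (Int.castRingHom F) : Polynomial F) : F⟦X⟧) := by
  ext m
  simp [ps, Polynomial.coeff_coe]

lemma hasse_mapF (k : ℕ) (P : Polynomial ℤ) : (Polynomial.hasseDeriv k P).map (Int.castRingHom F) =
    Polynomial.hasseDeriv k (P.map (Int.castRingHom F)) := by
  ext m
  rw [Polynomial.coeff_map, Polynomial.hasseDeriv_coeff, Polynomial.hasseDeriv_coeff, Polynomial.coeff_map]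
  simp

lemma PdF_map {N : ℕ} (T : Polynomial ℤ) (G : ℕ → Fin N → Fin N → Polynomial ℤ) (P : Fin N → Polynomial ℤ) (k : ℕ)
    (j : Fin N) : (PdZ T G P k j).map (Int.castRingHom F) = PdF (T.map (Int.castRingHom F))
      (fun s i j => (G s i j).map (Int.castRingHom F)) (fun i => (P i).map (Int.castRingHom F)) k j := by
  simp only [PdZ, PdF, Polynomial.map_sum, Polynomial.map_mul, Polynomial.map_pow, hasse_mapF]

end Maps

section Hom

variable {F : Type} [Field F]

/-- homogeneous evaluation -/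
noncomputable def hom (Q : Polynomial ℤ) (u w : F) (D : ℕ) : F :=
  ∑ i ∈ Finset.range (D + 1), (Q.coeff i : F) * (u ^ i * w ^ (D - i))

lemma hom_int (Q : Polynomial ℤ) {u w : F} (hu : IsIntegral ℤ u) (hw : IsIntegral ℤ w) (D : ℕ) :
    IsIntegral ℤ (hom Q u w D) := by
  refine IsIntegral.sum _ fun i _ => ?_
  have h1 : IsIntegral ℤ ((Q.coeff i : ℤ) : F) := by
    rw [← eq_intCast (algebraMap ℤ F)]
    exact isIntegral_algebraMap
  exact h1.mul ((hu.pow _).mul (hw.pow _))

lemma hom_eq {Q : Polynomial ℤ} {u w : F} {D : ℕ} (hQ : Q.natDegree ≤ D) (hw0 : w ≠ 0) :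
    hom Q u w D = w ^ D * (Q.map (Int.castRingHom F)).eval (u / w) := by
  rw [hom, Polynomial.eval_map, Polynomial.eval₂_eq_sum_range' (Int.castRingHom F) (n := D + 1) (by omega), Finset.mul_sum]
  refine Finset.sum_congr rfl fun i hi => ?_
  rw [Finset.mem_range] at hi
  have h1 : w ^ D = w ^ (D - i) * w ^ i := by rw [← pow_add]; congr 1; omega
  rw [h1, div_pow]
  simp only [eq_intCast]
  field_simp

lemma hom_bound {Q : Polynomial ℤ} {u w : F} {D : ℕ} (hQ : Q.natDegree ≤ D) (σ : F →+* ℂ) {X : ℝ} (hX : 0 ≤ X)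
    (hu : ‖σ u‖ ≤ X) (hw : ‖σ w‖ ≤ X) : ‖σ (hom Q u w D)‖ ≤ X ^ D * Pool.Agent.Y921.PW.l1 Q := by
  rw [hom, map_sum, ← Pool.Agent.Y921.PW.l1_range hQ, Finset.mul_sum]
  refine (norm_sum_le _ _).trans (Finset.sum_le_sum fun i hi => ?_)
  rw [Finset.mem_range] at hi
  rw [map_mul, map_mul, map_pow, map_pow, map_intCast, norm_mul, norm_mul, norm_pow, norm_pow, Complex.norm_intCast, mul_comm]
  refine mul_le_mul_of_nonneg_right ?_ (abs_nonneg _)
  calc ‖σ u‖ ^ i * ‖σ w‖ ^ (D - i) ≤ X ^ i * X ^ (D - i) :=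
        mul_le_mul (pow_le_pow_left₀ (norm_nonneg _) hu _) (pow_le_pow_left₀ (norm_nonneg _) hw _) (by positivity)
          (by positivity)
    _ = X ^ D := by rw [← pow_add]; congr 1; omega

end Hom

/-- the product formula for the determinant, sharper form -/
theorem det2 {m N : ℕ} (K : IntermediateField ℚ ℂ) [FiniteDimensional ℚ K] (hm : Module.finrank ℚ K ≤ m)
    (M : Matrix (Fin N) (Fin N) K) (I : Finset (Fin N)) (i₀ : Fin N) (Y : Fin N → ℂ) (A Z L : ℝ) (hdet : M.det ≠ 0)
    (hint : ∀ r j, IsIntegral ℤ (M r j)) (hY : Y i₀ = 1) (hA : 1 ≤ A) (hZ : 1 ≤ Z) (hL : 0 ≤ L)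
    (h0 : ∀ r ∈ I, ∑ j, (M r j : ℂ) * Y j = 0) (h1 : ∀ r, r ∉ I → ‖∑ j, (M r j : ℂ) * Y j‖ ≤ L)
    (hIA : ∀ r ∈ I, ∀ (j : Fin N) (σ : K →+* ℂ), ‖σ (M r j)‖ ≤ A)
    (hIZ : ∀ r, r ∉ I → ∀ (j : Fin N) (σ : K →+* ℂ), ‖σ (M r j)‖ ≤ Z) :
    I.card < N ∧ Z ≤ N * L * (N.factorial * A ^ N * Z ^ (N - I.card)) ^ m := by
  classical
  have hIN : I.card ≤ N := by
    have := Finset.card_le_univ I
    rwa [Fintype.card_fin] at this
  have hlt : I.card < N := by
    rcases lt_or_eq_of_le hIN with h | h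
    · exact h
    · exfalso
      have hI : I = Finset.univ := by
        apply Finset.eq_univ_of_card
        rw [h, Fintype.card_fin]
      have h2 := Pool.Agent.Y708.AL.t_det m N K inferInstance hm M I i₀ Y A Z 0 hdet hint hY hA hZ le_rfl h0
        (fun r hr => absurd (by rw [hI]; exact Finset.mem_univ r) hr) hIA hIZ
      simp only [mul_zero, zero_mul] at h2
      linarith
  refine ⟨hlt, ?_⟩
  set B : ℝ := N.factorial * A ^ N * Z ^ (N - I.card) with hB
  set B' : ℝ := N.factorial * A ^ N * Z ^ (N - I.card - 1) with hB'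
  have hA0 : 0 ≤ A := zero_le_one.trans hA
  have hZ0 : 0 ≤ Z := zero_le_one.trans hZ
  have hfac : (1 : ℝ) ≤ N.factorial := by exact_mod_cast Nat.succ_le_of_lt (Nat.factorial_pos N)
  have hBB' : B' * Z = B := by
    rw [hB, hB', mul_assoc, ← pow_succ]
    congr 2
    omega
  have hB1 : 1 ≤ B := by
    have h2 : (1 : ℝ) ≤ A ^ N := one_le_pow₀ hA
    have h3 : (1 : ℝ) ≤ Z ^ (N - I.card) := one_le_pow₀ hZ
    rw [hB]
    exact one_le_mul_of_one_le_of_one_le (one_le_mul_of_one_le_of_one_le hfac h2) h3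
  -- all conjugates
  have hconj : ∀ σ : K →+* ℂ, ‖σ M.det‖ ≤ B := by
    intro σ
    rw [RingHom.map_det]
    refine (Pool.Agent.Y708.AL.det_boundC _ (fun r => if r ∈ I then A else Z) ?_).trans ?_
    · intro r j
      rw [RingHom.mapMatrix_apply, Matrix.map_apply]
      by_cases hr : r ∈ I
      · rw [if_pos hr]; exact hIA r hr j σ
      · rw [if_neg hr]; exact hIZ r hr j σ
    · rw [Pool.Agent.Y708.AL.prod_rows, hB, ← mul_assoc]
      exact mul_le_mul_of_nonneg_right (mul_le_mul_of_nonneg_left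
        (pow_le_pow_right₀ hA hIN) (by positivity)) (by positivity)
  -- the inclusion
  have hincl : ‖((M.det : K) : ℂ)‖ ≤ N * L * B' := by
    set R : Matrix (Fin N) (Fin N) ℂ := M.map (fun x : K => (x : ℂ)) with hR
    have hRd : R.det = ((M.det : K) : ℂ) := by
      have h2 := RingHom.map_det (algebraMap K ℂ) M
      rw [show ((M.det : K) : ℂ) = algebraMap K ℂ M.det from rfl, h2]
      rfl
    have h2 : R.det * Y i₀ = ∑ r, R.adjugate i₀ r * (R.mulVec Y) r := by
      have h3 : R.adjugate.mulVec (R.mulVec Y) = R.det • Y := by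
        rw [Matrix.mulVec_mulVec, Matrix.adjugate_mul, Matrix.smul_mulVec, Matrix.one_mulVec]
      have := congrFun h3 i₀
      rw [Pi.smul_apply, smul_eq_mul] at this
      rw [← this]
      rfl
    rw [hY, mul_one] at h2
    rw [← hRd, h2]
    refine (norm_sum_le _ _).trans ?_
    have h3 : ∀ r : Fin N, ‖R.adjugate i₀ r * (R.mulVec Y) r‖ ≤ B' * L := by
      intro r
      have hmv : (R.mulVec Y) r = ∑ j, ((M r j : K) : ℂ) * Y j := rfl
      by_cases hr : r ∈ I
      · rw [hmv, h0 r hr, mul_zero, norm_zero]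
        positivity
      · rw [norm_mul, hmv]
        refine mul_le_mul ?_ (h1 r hr) (norm_nonneg _) (by positivity)
        rw [Matrix.adjugate_apply]
        refine (Pool.Agent.Y708.AL.det_boundC _ (fun s => if s = r then 1 else if s ∈ I then A else Z) ?_).trans ?_
        · intro s j
          by_cases hs : s = r
          · rw [hs, Matrix.updateRow_self, if_pos rfl]
            by_cases hj : j = i₀
            · rw [hj, Pi.single_eq_same, norm_one]
            · rw [Pi.single_eq_of_ne hj, norm_zero]; norm_num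
          · rw [Matrix.updateRow_ne hs, if_neg hs]
            by_cases hs2 : s ∈ I
            · rw [if_pos hs2]; exact hIA s hs2 j (algebraMap K ℂ)
            · rw [if_neg hs2]; exact hIZ s hs2 j (algebraMap K ℂ)
        · have h4 : (∏ s : Fin N, (if s = r then (1 : ℝ) else if s ∈ I then A else Z)) * Z =
              ∏ s : Fin N, (if s ∈ I then A else Z) := by
            rw [← Finset.mul_prod_erase Finset.univ _ (Finset.mem_univ r), if_pos rfl, one_mul,
              ← Finset.mul_prod_erase Finset.univ (fun s => if s ∈ I then A else Z) (Finset.mem_univ r), if_neg hr, mul_comm]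
            congr 1
            refine Finset.prod_congr rfl fun s hs => ?_
            rw [Finset.mem_erase] at hs
            rw [if_neg hs.1]
          rw [Pool.Agent.Y708.AL.prod_rows] at h4
          have hZpos : 0 < Z := by linarith
          have h5 : (∏ s : Fin N, (if s = r then (1 : ℝ) else if s ∈ I then A else Z)) = A ^ I.card * Z ^ (N - I.card - 1) := by
            apply mul_right_cancel₀ hZpos.ne'
            rw [h4, mul_assoc, ← pow_succ]
            congr 2
            omega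
          rw [h5, hB', ← mul_assoc]
          exact mul_le_mul_of_nonneg_right (mul_le_mul_of_nonneg_left
            (pow_le_pow_right₀ hA hIN) (by positivity)) (by positivity)
    calc ∑ r, ‖R.adjugate i₀ r * (R.mulVec Y) r‖ ≤ ∑ _r : Fin N, B' * L :=
          Finset.sum_le_sum fun r _ => h3 r
      _ = N * L * B' := by
          rw [Finset.sum_const, Finset.card_univ, Fintype.card_fin, nsmul_eq_mul]; ring
  -- the norm
  have hI : IsIntegral ℤ M.det := IsIntegral.det hint
  have hn0 : Algebra.norm ℚ M.det ≠ 0 := Algebra.norm_ne_zero_iff.2 hdet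
  obtain ⟨z, hz⟩ := IsIntegrallyClosed.isIntegral_iff.1 (Algebra.isIntegral_norm ℚ hI)
  have hz0 : z ≠ 0 := by
    intro h
    rw [h, map_zero] at hz
    exact hn0 hz.symm
  have hnorm : (1 : ℝ) ≤ ‖algebraMap ℚ ℂ (Algebra.norm ℚ M.det)‖ := by
    rw [← hz]
    have h2 : algebraMap ℚ ℂ (algebraMap ℤ ℚ z) = (z : ℂ) := by simp
    rw [h2, Complex.norm_intCast]
    exact_mod_cast Int.one_le_abs hz0
  rw [Algebra.norm_eq_prod_embeddings ℚ ℂ M.det, norm_prod] at hnorm
  have hcard : Fintype.card (K →ₐ[ℚ] ℂ) = Module.finrank ℚ K := AlgHom.card ℚ K ℂ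
  have hσ₀ : (K.val : K →ₐ[ℚ] ℂ) ∈ (Finset.univ : Finset (K →ₐ[ℚ] ℂ)) := Finset.mem_univ _
  have hnorm' : (1 : ℝ) ≤ ∏ σ ∈ (Finset.univ : Finset (K →ₐ[ℚ] ℂ)), ‖σ M.det‖ := by
    refine hnorm.trans_eq ?_
    refine Finset.prod_congr ?_ fun _ _ => rfl
    ext σ
    simp
  have hnorm'' : (1 : ℝ) ≤ ‖(K.val : K →ₐ[ℚ] ℂ) M.det‖ *
      ∏ σ ∈ Finset.univ.erase (K.val : K →ₐ[ℚ] ℂ), ‖σ M.det‖ := by
    refine hnorm'.trans_eq ?_
    exact (Finset.mul_prod_erase Finset.univ (fun σ : K →ₐ[ℚ] ℂ => ‖σ M.det‖) hσ₀).symm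
  have hle : ∏ σ ∈ Finset.univ.erase (K.val : K →ₐ[ℚ] ℂ), ‖σ M.det‖ ≤
      B ^ (Module.finrank ℚ K - 1) := by
    have h2 : (Finset.univ.erase (K.val : K →ₐ[ℚ] ℂ)).card = Module.finrank ℚ K - 1 := by
      have h3 : (Finset.univ : Finset (K →ₐ[ℚ] ℂ)).card = Module.finrank ℚ K := by
        rw [Finset.card_univ, hcard]
      rw [← h3]
      exact Finset.card_erase_of_mem hσ₀
    rw [← h2, ← Finset.prod_const]
    exact Finset.prod_le_prod (fun _ _ => norm_nonneg _) fun σ _ => hconj (σ : K →+* ℂ)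
  have hfr : 1 ≤ Module.finrank ℚ K := Module.finrank_pos
  have hNL : 0 ≤ N * L * B' := by positivity
  have hmain : (1 : ℝ) ≤ (N * L * B') * B ^ (Module.finrank ℚ K - 1) :=
    hnorm''.trans (mul_le_mul hincl hle (Finset.prod_nonneg fun _ _ => norm_nonneg _) hNL)
  calc Z = 1 * Z := (one_mul Z).symm
    _ ≤ ((N * L * B') * B ^ (Module.finrank ℚ K - 1)) * Z := mul_le_mul_of_nonneg_right hmain hZ0
    _ = N * L * ((B' * Z) * B ^ (Module.finrank ℚ K - 1)) := by ring
    _ = N * L * B ^ (Module.finrank ℚ K) := by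
        rw [hBB', ← pow_succ', Nat.sub_add_cancel hfr]
    _ ≤ N * L * B ^ m :=
        mul_le_mul_of_nonneg_left (pow_le_pow_right₀ hB1 hm) (by positivity)

end Pool.Agent.Y916.Al
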