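import Pool.Agent.Y916.Al.Core
import Pool.Agent.Y113.AL.Mat

/-!
# G-systems at algebraic points: the estimate for one value of the parameter
-/

set_option autoImplicit false

open PowerSeries Finset.HasAntidiagonal

namespace Pool.Agent.Y916.Al

open Pool.Agent.Y113

lemma norm_aeval_le {x : ℂ} (hx : ‖x‖ ≤ 1) {Q : Polynomial ℤ} {M : ℕ} {A : ℝ} (hQ : Q.natDegree ≤ M)
    (hc : ∀ l, |((Q.coeff l : ℤ) : ℝ)| ≤ A) : ‖Polynomial.aeval x Q‖ ≤ (M + 1) * A := by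
  rw [Polynomial.aeval_eq_sum_range' (n := M + 1) (by omega)]
  refine (norm_sum_le _ _).trans ?_
  have h1 : ∀ i ∈ Finset.range (M + 1), ‖Q.coeff i • x ^ i‖ ≤ A := by
    intro i _
    rw [zsmul_eq_mul, norm_mul, norm_pow, Complex.norm_intCast]
    calc |((Q.coeff i : ℤ) : ℝ)| * ‖x‖ ^ i ≤ A * 1 :=
          mul_le_mul (hc i) (pow_le_one₀ (norm_nonneg _) hx) (by positivity) ((abs_nonneg _).trans (hc i))
      _ = A := mul_one A
  refine (Finset.sum_le_sum h1).trans (le_of_eq ?_)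
  simp

section Core

variable {N q : ℕ} {C : ℝ} {T : Polynomial ℤ} {y : Fin N → ℚ⟦X⟧}

/-- the estimate for one value of the parameter `ν` -/
lemma core (hG : GSys q C T y) (i₀ : Fin N) (h1 : y i₀ = 1) (K : IntermediateField ℚ ℂ) [FiniteDimensional ℚ K] {m : ℕ}
    (hm : Module.finrank ℚ K ≤ m) (x u w : K) (hu : IsIntegral ℤ u) (hw : IsIntegral ℤ w) (hw0 : w ≠ 0) (hxuw : x = u / w)
    (X : ℝ) (hX1 : 1 ≤ X) (hX : ∀ σ : K →+* ℂ, ‖σ u‖ ≤ X ∧ ‖σ w‖ ≤ X) (hxC : 8 * C * ‖(x : ℂ)‖ ≤ 1)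
    (c₁ : ℕ)
    (hrank : ∀ (n m' K' : ℕ) (P : Fin N → Polynomial K), P ≠ 0 → (∀ i, (P i).natDegree ≤ n) →
      (∀ l < m', coeff l (∑ i, (P i : K⟦X⟧) * PowerSeries.map (algebraMap ℚ K) (y i)) = 0) →
      (N - 1) * n + c₁ < m' → N * n + c₁ < m' + K' →
      ∀ (g : K) (G : ℕ → Fin N → Fin N → Polynomial K), g ≠ 0 →
      (∀ s ≤ K', ∀ i, PowerSeries.C g * (((T.map (Int.castRingHom K) : Polynomial K) : K⟦X⟧) ^ s *
        hdF s (PowerSeries.map (algebraMap ℚ K) (y i))) = ∑ j, (G s i j : K⟦X⟧) * PowerSeries.map (algebraMap ℚ K) (y j)) →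
      ∀ v : Fin N → K, (∀ k ≤ K', ∑ j, (PdF (T.map (Int.castRingHom K)) G P k j).eval x * v j = 0) → v = 0)
    {R : ℕ} (a : Fin R → Fin N → K) (hLI : LinearIndependent K a) (haI : ∀ r j, IsIntegral ℤ (a r j))
    (ha : ∀ r, ∑ i, (a r i : ℂ) * evc (x : ℂ) (y i) = 0) (A₁ : ℝ) (hA₁ : 1 ≤ A₁)
    (hA : ∀ r j (σ : K →+* ℂ), ‖σ (a r j)‖ ≤ A₁) (L ν : ℕ) (hL : 4 ≤ L) (hν : c₁ < ν) :
    R < N ∧ X ^ (L * ν + q * (2 * ν)) * ((2 * C) ^ ((2 * q + 3) * (2 * ν) + 2 * (L * ν) + N + 1) *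
        ((N * (L * ν + 1) : ℕ) * C ^ (2 * ((N * L - 1) * ν) + 1)) ^ (N * L)) ≤
      N * (X ^ (L * ν + q * (2 * ν)) * ((2 * C) ^ (2 * ν + 1) * ((2 * C) ^ ((q + 1) * (2 * ν)) *
        (2 * ((N * ((L * ν : ℕ) + 1) * ((N * (L * ν + 1) : ℕ) * C ^ (2 * ((N * L - 1) * ν) + 1)) ^ (N * L) * C) *
          (4 * C) ^ ((N * L - 1) * ν) * ‖(x : ℂ)‖ ^ ((N * L - 1) * ν - 2 * ν)))))) *
      (N.factorial * A₁ ^ N * (X ^ (L * ν + q * (2 * ν)) * ((2 * C) ^ ((2 * q + 3) * (2 * ν) + 2 * (L * ν) + N + 1) *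
        ((N * (L * ν + 1) : ℕ) * C ^ (2 * ((N * L - 1) * ν) + 1)) ^ (N * L))) ^ (N - R)) ^ m := by
  have hC := hG.one_le
  have hNpos : 0 < N := i₀.pos
  have hX0 : 0 ≤ X := by linarith
  have hνpos : 0 < ν := by omega
  have hNL : 4 ≤ N * L := le_trans hL (Nat.le_mul_of_pos_left L hNpos)
  set n := L * ν with hn
  set m₀ := (N * L - 1) * ν with hm₀
  set K' := 2 * ν with hK
  have hNLn : N * n = N * L * ν := by rw [hn]; ring
  have hm₀' : m₀ + ν = N * n := by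
    rw [hNLn, hm₀, Nat.sub_mul, one_mul]
    have : ν ≤ N * L * ν := Nat.le_mul_of_pos_left ν (by omega)
    omega
  have hm₀pos : 0 < m₀ := by
    rw [hm₀]; exact Nat.mul_pos (by omega) hνpos
  have hmn : m₀ < N * (n + 1) := by
    have : N * (n + 1) = N * n + N := by ring
    omega
  have he : m₀ ≤ (N * L) * (N * (n + 1) - m₀) := by
    have h2 : N * (n + 1) - m₀ = ν + N := by
      have : N * (n + 1) = N * n + N := by ring
      omega
    rw [h2]
    calc m₀ ≤ N * n := by omega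
      _ = N * L * ν := hNLn
      _ ≤ N * L * (ν + N) := Nat.mul_le_mul_left _ (by omega)
  obtain ⟨P, hP0, hPn, hPc, hPv⟩ := siegel_poly hC hG.size hG.den n m₀ (N * L) hm₀pos hmn he
  set A₀ : ℝ := ((N * (n + 1) : ℕ) * C ^ (2 * m₀ + 1)) ^ (N * L) with hA₀
  have hA₀0 : 0 ≤ A₀ := by positivity
  obtain ⟨g, hg0, hgC, hgG⟩ := hG.der K'
  choose! G hGd hGc hGe using hgG
  -- versions over `K`
  have hPQ0 : (fun i => (P i).map (Int.castRingHom K)) ≠ 0 := by
    intro h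
    apply hP0
    funext i
    have h2 := congrFun h i
    simp only [Pi.zero_apply] at h2
    exact (Polynomial.map_eq_zero_iff (Int.cast_injective)).1 h2
  have hPvK : ∀ l < m₀, coeff l (∑ i, (((P i).map (Int.castRingHom K) : Polynomial K) : K⟦X⟧) *
      PowerSeries.map (algebraMap ℚ K) (y i)) = 0 := by
    intro l hl
    have h2 : ∑ i, (((P i).map (Int.castRingHom K) : Polynomial K) : K⟦X⟧) * PowerSeries.map (algebraMap ℚ K) (y i) =
        PowerSeries.map (algebraMap ℚ K) (∑ i, ps (P i) * y i) := by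
      rw [map_sum]
      refine Finset.sum_congr rfl fun i _ => ?_
      rw [map_mul, map_ps]
    rw [h2, PowerSeries.coeff_map, hPv l hl, map_zero]
  have hsp := hrank n m₀ K' (fun i => (P i).map (Int.castRingHom K)) hPQ0
    (fun i => (Polynomial.natDegree_map_le).trans (hPn i)) hPvK
    (by
      have h2 : (N - 1) * n + n = N * n := by
        have h3 : (N - 1 + 1) * n = N * n := by rw [Nat.sub_add_cancel hNpos]
        rw [← h3]; ring
      have h4 : 2 * ν ≤ n := by rw [hn]; exact Nat.mul_le_mul_right _ (by omega)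
      omega)
    (by omega) (g : K) (fun s i j => (G s i j).map (Int.castRingHom K)) (by exact_mod_cast hg0.ne')
    (by
      intro s hs i
      have h2 := congrArg (PowerSeries.map (algebraMap ℚ K)) (hGe s hs i)
      rw [map_mul, map_mul, map_pow, map_ps, map_sum, map_natCast] at h2
      rw [hdF_map, map_natCast]
      rw [h2]
      refine Finset.sum_congr rfl fun j _ => ?_
      rw [map_mul, map_ps])
  -- integer vectors
  set D : ℕ := n + q * K' with hD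
  have hdegPd : ∀ k ≤ K', ∀ j, (PdZ T G P k j).natDegree ≤ D := fun k hk j =>
    natDegree_PdZ hG.degT hPn (fun s hs i j => hGd s hs i j) hk j
  set z : Fin (K' + 1) → Fin N → K := fun k j => hom (PdZ T G P k j) u w D with hz
  have hzorth : ∀ v : Fin N → K, (∀ k, ∑ j, z k j * v j = 0) → v = 0 := by
    intro v hv
    apply hsp v
    intro k hk
    have h2 := hv ⟨k, by omega⟩
    have h3 : ∀ j, z ⟨k, by omega⟩ j = w ^ D *
        (PdF (T.map (Int.castRingHom K)) (fun s i j => (G s i j).map (Int.castRingHom K))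
          (fun i => (P i).map (Int.castRingHom K)) k j).eval x := by
      intro j
      rw [hz]
      simp only
      rw [hom_eq (hdegPd k hk j) hw0, PdF_map, ← hxuw]
    simp only [h3, mul_assoc] at h2
    rw [← Finset.mul_sum] at h2
    rcases mul_eq_zero.1 h2 with h5 | h5
    · exact absurd h5 (pow_ne_zero _ hw0)
    · exact h5
  obtain ⟨M, I, hMdet, hIc, hMI, hMr⟩ := Pool.Agent.Y113.AL.t_mat K N R (Fin (K' + 1)) a z hLI hzorth
  -- bounds
  have hx0 : (0 : ℝ) ≤ ‖(x : ℂ)‖ := norm_nonneg _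
  have hx1 : ‖(x : ℂ)‖ ≤ 1 := by nlinarith
  have hC2 : C ≤ 2 * C := by linarith
  have hD2 : 2 ≤ 2 * C := by linarith
  have hD1 : 1 ≤ 2 * C := by linarith
  have hzb : ∀ k j (σ : K →+* ℂ), ‖σ (z k j)‖ ≤ X ^ D * ((2 * C) ^ ((2 * q + 3) * K' + 2 * n + N + 1) * A₀) := by
    intro k j σ
    refine (hom_bound (hdegPd k (by have := k.2; omega) j) σ hX0 (hX σ).1 (hX σ).2).trans ?_
    refine mul_le_mul_of_nonneg_left ?_ (by positivity)
    exact Pool.Agent.Y921.PW.PdZ_l1 hD2 hC2 hC hA₀0 hG.degT hG.sizeT hPn hPc (fun s hs i j => hGd s hs i j)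
      (fun s hs i j l => hGc s hs i j l) (by have := k.2; omega) j
  -- the small forms
  have hcvy : ∀ i, Cvc (x : ℂ) (y i) := fun i => Cvc.of_bound (A := C) (B := C) (by linarith) (by nlinarith) (fun l => by
    rw [← pow_succ', Complex.norm_ratCast]; exact hG.size i l)
  set Rf := ∑ i, ps (P i) * y i with hR
  have hbd : ∀ k ≤ m₀, Cvc (x : ℂ) (hd k Rf) ∧ ‖evc (x : ℂ) (hd k Rf)‖ ≤
      2 * ((N * (n + 1) * A₀ * C) * (4 * C) ^ m₀ * ‖(x : ℂ)‖ ^ (m₀ - k)) := by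
    intro k hk
    exact ev_hd_bound (f := Rf) (A := N * (n + 1) * A₀ * C) (B := C) (by positivity) hC (by nlinarith)
      (form_size hC hA₀0 hG.size hPn hPc) hk hPv
  have hKm : K' ≤ m₀ := by rw [hK, hm₀]; exact Nat.mul_le_mul_right _ (by omega)
  have hps : ∀ Q : Polynomial ℤ, Cvc (x : ℂ) (ps Q) ∧ evc (x : ℂ) (ps Q) = Polynomial.aeval (x : ℂ) Q := by
    intro Q
    refine ⟨Cvc.coe _, ?_⟩
    rw [ps, ev_coe]
    rw [Polynomial.aeval_def, Polynomial.aeval_def, Polynomial.eval₂_map]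
    congr 1
  have hform : ∀ k ≤ K', (g : ℂ) * (Polynomial.aeval (x : ℂ) T ^ k * evc (x : ℂ) (hd k Rf)) =
      ∑ j, Polynomial.aeval (x : ℂ) (PdZ T G P k j) * evc (x : ℂ) (y j) := by
    intro k hk
    have hbound := hbd k (by omega)
    have hPdeq := Pd_eq Polynomial.coeToPowerSeries.ringHom coe_deriv' (T := T.map (Int.castRingHom ℚ)) (Y := y)
      (G := fun s i j => (G s i j).map (Int.castRingHom ℚ)) (K := K') (g := (g : ℚ⟦X⟧)) (fun s hs i => hGe s hs i)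
      (fun i => (P i).map (Int.castRingHom ℚ)) k hk
    simp only [← PdZ_map] at hPdeq
    have hPdeq' : (g : ℚ⟦X⟧) * (ps T ^ k * hd k Rf) = ∑ j, ps (PdZ T G P k j) * y j := hPdeq
    have hev := congrArg (evc (x : ℂ)) hPdeq'
    have hgC' : Cvc (x : ℂ) ((g : ℚ⟦X⟧)) ∧ evc (x : ℂ) ((g : ℚ⟦X⟧)) = g := by
      rw [← map_natCast (PowerSeries.C (R := ℚ))]
      exact ⟨Cvc.C _, by rw [ev_C]; simp⟩
    rw [hgC'.1.ev_mul (((hps T).1.pow k).mul hbound.1),
      ((hps T).1.pow k).ev_mul hbound.1, (hps T).1.ev_pow, hgC'.2, (hps T).2,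
      Cvc.ev_sum _ _ (fun j _ => (hps _).1.mul (hcvy j))] at hev
    rw [hev]
    refine Finset.sum_congr rfl fun j _ => ?_
    rw [(hps _).1.ev_mul (hcvy j), (hps _).2]
  set LL : ℝ := X ^ D * ((2 * C) ^ (K' + 1) * ((2 * C) ^ ((q + 1) * K') *
        (2 * ((N * ((n : ℕ) + 1) * A₀ * C) *
          (4 * C) ^ m₀ * ‖(x : ℂ)‖ ^ (m₀ - K'))))) with hLL
  have hLL0 : 0 ≤ LL := by positivity
  have hwX : ‖(w : ℂ)‖ ≤ X := (hX (algebraMap K ℂ)).2
  have hsmall : ∀ k : Fin (K' + 1), ‖∑ j, ((z k j : K) : ℂ) * evc (x : ℂ) (y j)‖ ≤ LL := by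
    intro k
    have hk : (k : ℕ) ≤ K' := by have := k.2; omega
    have hzx : ∀ j, ((z k j : K) : ℂ) = (w : ℂ) ^ D * Polynomial.aeval (x : ℂ) (PdZ T G P k j) := by
      intro j
      have h3 : z k j = w ^ D * ((PdZ T G P k j).map (Int.castRingHom K)).eval x := by
        rw [hxuw]; exact hom_eq (hdegPd k hk j) hw0
      rw [h3]
      have h4 : (((((PdZ T G P k j).map (Int.castRingHom K)).eval x : K)) : ℂ) = Polynomial.aeval (x : ℂ) (PdZ T G P k j) := by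
        rw [Polynomial.eval_map, Polynomial.aeval_def, Polynomial.eval₂_eq_sum_range, Polynomial.eval₂_eq_sum_range]
        push_cast
        rfl
      rw [← h4]
      push_cast
      ring
    have h2 : ∑ j, ((z k j : K) : ℂ) * evc (x : ℂ) (y j) = (w : ℂ) ^ D *
        ((g : ℂ) * (Polynomial.aeval (x : ℂ) T ^ (k : ℕ) * evc (x : ℂ) (hd k Rf))) := by
      rw [hform k hk, Finset.mul_sum]
      refine Finset.sum_congr rfl fun j _ => ?_
      rw [hzx]; ring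
    rw [h2, norm_mul, norm_mul, norm_mul, norm_pow, norm_pow, Complex.norm_natCast, hLL]
    have hTx : ‖Polynomial.aeval (x : ℂ) T‖ ≤ (2 * C) ^ (q + 1) := by
      refine (norm_aeval_le hx1 hG.degT hG.sizeT).trans ?_
      rw [pow_succ]
      refine mul_le_mul ?_ hC2 (by linarith) (by positivity)
      calc (q : ℝ) + 1 ≤ 2 ^ q := by exact_mod_cast (Nat.lt_two_pow_self : q < 2 ^ q)
        _ ≤ (2 * C) ^ q := pow_le_pow_left₀ (by norm_num) hD2 q
    refine mul_le_mul (pow_le_pow_left₀ (norm_nonneg _) hwX _) ?_ (by positivity) (by positivity)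
    refine mul_le_mul ?_ (mul_le_mul ?_ ?_ (norm_nonneg _) (by positivity)) (by positivity) (by positivity)
    · exact hgC.trans (pow_le_pow_left₀ (by linarith) hC2 _)
    · calc ‖Polynomial.aeval (x : ℂ) T‖ ^ (k : ℕ) ≤ ((2 * C) ^ (q + 1)) ^ (k : ℕ) :=
            pow_le_pow_left₀ (norm_nonneg _) hTx _
        _ = (2 * C) ^ ((q + 1) * k) := by rw [← pow_mul]
        _ ≤ (2 * C) ^ ((q + 1) * K') := pow_le_pow_right₀ hD1 (Nat.mul_le_mul_left _ hk)
    · refine (hbd k (by omega)).2.trans ?_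
      refine mul_le_mul_of_nonneg_left ?_ (by norm_num)
      refine mul_le_mul_of_nonneg_left ?_ (by positivity)
      exact pow_le_pow_of_le_one hx0 hx1 (by omega)
  have hnatN : (1 : ℝ) ≤ ((N * (n + 1) : ℕ) : ℝ) := by
    exact_mod_cast (Nat.mul_pos hNpos (Nat.succ_pos n))
  have hA₀1 : 1 ≤ A₀ := by
    rw [hA₀]
    apply one_le_pow₀
    have : (1 : ℝ) ≤ C ^ (2 * m₀ + 1) := one_le_pow₀ hC
    nlinarith
  have hZ1 : 1 ≤ X ^ D * ((2 * C) ^ ((2 * q + 3) * K' + 2 * n + N + 1) * A₀) := by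
    have h2 : (1 : ℝ) ≤ X ^ D := one_le_pow₀ hX1
    have h3 : (1 : ℝ) ≤ (2 * C) ^ ((2 * q + 3) * K' + 2 * n + N + 1) := one_le_pow₀ hD1
    have h4 : (1 : ℝ) ≤ (2 * C) ^ ((2 * q + 3) * K' + 2 * n + N + 1) * A₀ := by nlinarith
    nlinarith
  have hfin := det2 K hm M I i₀ (fun j => evc (x : ℂ) (y j)) A₁ (X ^ D * ((2 * C) ^ ((2 * q + 3) * K' + 2 * n + N + 1) * A₀)) LL
    hMdet ?_ (by simp only [h1]; exact ev_one) hA₁ hZ1 hLL0 ?_ ?_ ?_ ?_
  · rw [hIc] at hfin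
    exact hfin
  · intro r j
    by_cases hr : r ∈ I
    · obtain ⟨s, hs⟩ := hMI r hr
      rw [hs]; exact haI s j
    · obtain ⟨k, hk⟩ := hMr r hr
      rw [hk]; exact hom_int _ hu hw _
  · intro r hr
    obtain ⟨s, hs⟩ := hMI r hr
    rw [hs]; exact ha s
  · intro r hr
    obtain ⟨k, hk⟩ := hMr r hr
    rw [hk]; exact hsmall k
  · intro r hr j σ
    obtain ⟨s, hs⟩ := hMI r hr
    rw [hs]; exact hA s j σ
  · intro r hr j σ
    obtain ⟨k, hk⟩ := hMr r hr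
    rw [hk]; exact hzb k j σ

end Core

end Pool.Agent.Y916.Al
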