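import Pool.Agent.Y916.Al.Tup

/-!
# Logarithms of algebraic numbers of a lattice: almost all tuples
-/

set_option autoImplicit false

open Module

namespace Pool.Agent.Y916.Al

open Pool.Agent.Y916.Ari Pool.Agent.Y113

/-- combinations of fixed numbers of a number field are quotients of integers of bounded size -/
theorem pt_comb {m : ℕ} (K : IntermediateField ℚ ℂ) [FiniteDimensional ℚ K] (η : Fin m → K) :
    ∃ C : ℝ, 0 ≤ C ∧ ∀ (Y : ℝ), 1 ≤ Y → ∀ n : Fin m → ℤ, (∀ j, |(n j : ℝ)| ≤ Y) → Pt K (∑ j, (n j : K) * η j) (C * Y) := by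
  classical
  have : NumberField K := { to_charZero := inferInstance, to_finiteDimensional := inferInstance }
  have : Algebra.IsAlgebraic ℤ K :=
    (IsFractionRing.comap_isAlgebraic_iff (A := ℤ) (K := ℚ) (C := K)).2 inferInstance
  obtain ⟨a, ha0, ha⟩ := Algebra.IsAlgebraic.exists_integral_multiples ℤ (Finset.univ.image η)
  have haK : (a : K) ≠ 0 := by exact_mod_cast ha0
  have haI : ∀ j, IsIntegral ℤ ((a : K) * η j) := by
    intro j
    have h2 := ha (η j) (Finset.mem_image.2 ⟨j, Finset.mem_univ _, rfl⟩)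
    rwa [zsmul_eq_mul] at h2
  have hint : ∀ z : ℤ, IsIntegral ℤ (z : K) := by
    intro z
    rw [← eq_intCast (algebraMap ℤ K)]
    exact isIntegral_algebraMap
  set B : ℝ := ∑ j, ∑ σ : K →+* ℂ, ‖σ ((a : K) * η j)‖ with hB
  have hB0 : 0 ≤ B := Finset.sum_nonneg fun _ _ => Finset.sum_nonneg fun _ _ => norm_nonneg _
  refine ⟨|(a : ℝ)| + B, by positivity, fun Y hY n hn => ?_⟩
  refine ⟨(a : K) * ∑ j, (n j : K) * η j, a, ?_, hint a, haK, ?_, fun σ => ⟨?_, ?_⟩⟩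
  · have h1 : (a : K) * ∑ j, (n j : K) * η j = ∑ j, (n j : K) * ((a : K) * η j) := by
      rw [Finset.mul_sum]
      exact Finset.sum_congr rfl fun j _ => by ring
    rw [h1]
    exact IsIntegral.sum _ fun j _ => (hint _).mul (haI j)
  · rw [mul_div_cancel_left₀ _ haK]
  · have h1 : (a : K) * ∑ j, (n j : K) * η j = ∑ j, (n j : K) * ((a : K) * η j) := by
      rw [Finset.mul_sum]
      exact Finset.sum_congr rfl fun j _ => by ring
    rw [h1, map_sum]
    refine (norm_sum_le _ _).trans ?_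
    have h2 : ∀ j ∈ (Finset.univ : Finset (Fin m)), ‖σ ((n j : K) * ((a : K) * η j))‖ ≤
        Y * ∑ σ : K →+* ℂ, ‖σ ((a : K) * η j)‖ := by
      intro j _
      rw [map_mul, map_intCast, norm_mul, Complex.norm_intCast]
      refine mul_le_mul (hn j) ?_ (norm_nonneg _) (by linarith)
      exact Finset.single_le_sum (f := fun σ : K →+* ℂ => ‖σ ((a : K) * η j)‖) (fun _ _ => norm_nonneg _)
        (Finset.mem_univ σ)
    refine (Finset.sum_le_sum h2).trans ?_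
    rw [← Finset.mul_sum, ← hB, add_mul, mul_comm Y]
    have : 0 ≤ |(a : ℝ)| * Y := by positivity
    linarith
  · rw [map_intCast, Complex.norm_intCast]
    have h1 : |(a : ℝ)| ≤ |(a : ℝ)| + B := by linarith
    calc |(a : ℝ)| = |(a : ℝ)| * 1 := (mul_one _).symm
      _ ≤ (|(a : ℝ)| + B) * Y := mul_le_mul h1 hY zero_le_one (by positivity)

open Classical in
/-- few bad points of a lattice -/
theorem lattice_bad {m r : ℕ} (η : Fin (m + 1) → ℂ) (hη : ∀ j, IsAlgebraic ℚ (η j)) (hη0 : η 0 = 1) (θ : Fin r → ℂ)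
    (hθ : ∀ j, IsAlgebraic ℚ (θ j)) (hinj : Function.Injective θ) (δ D : ℕ) :
    ∃ c : ℝ, 0 < c ∧ ∃ C : ℝ, 0 ≤ C ∧ ∀ V : Submodule ℚ ℂ, Module.Finite ℚ V → finrank ℚ V ≤ D → ∀ T : ℕ, 1 ≤ T →
      (((Fintype.piFinset fun _ : Fin (m + 1) => Finset.Icc (-(T : ℤ)) T).filter fun n =>
        Rel δ V (fun s => Complex.log ((∑ j, (n j : ℂ) * η j) + θ s))).card : ℝ) ≤ C * (T : ℝ) ^ (((m + 1 : ℕ) : ℝ) - c) := by
  set K₁ : IntermediateField ℚ ℂ := IntermediateField.adjoin ℚ (Set.range η) with hK₁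
  have hfd : FiniteDimensional ℚ K₁ := IntermediateField.finiteDimensional_adjoin (by
    rintro _ ⟨j, rfl⟩
    exact (hη j).isIntegral)
  set ηK : Fin (m + 1) → K₁ := fun j => ⟨η j, IntermediateField.subset_adjoin ℚ _ ⟨j, rfl⟩⟩ with hηK
  obtain ⟨C₁, hC₁, hpt⟩ := pt_comb K₁ ηK
  obtain ⟨d, h, hadm⟩ := adm_all θ hθ
  obtain ⟨M, E₁, hwin⟩ := hwinA θ hinj d h hadm (finrank ℚ K₁) 5 δ D
  obtain ⟨N₁, hN₁⟩ := pow_unbounded_of_one_lt (10 * C₁) (show (1 : ℝ) < 2 by norm_num)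
  obtain ⟨c, hc, hc1, C, hC, hline⟩ := line_count M (E₁ + N₁)
  obtain ⟨C₂, hC₂⟩ := exists_nat_ge (∑ j, ‖η j‖)
  have hC₂1 : 1 ≤ C₂ + 1 := by omega
  refine ⟨c, hc, 3 ^ m * (C * (C₂ + 1)), by positivity, fun V hV hVD T hT => ?_⟩
  have hT1 : (1 : ℝ) ≤ T := by exact_mod_cast hT
  have hT0 : (0 : ℝ) < T := by linarith
  set T' : ℕ := (C₂ + 1) * T with hT'
  have hTT' : T ≤ T' := Nat.le_mul_of_pos_left T (by omega)
  have hT'1 : 1 ≤ T' := hT.trans hTT'
  have hT'R : (1 : ℝ) ≤ T' := by exact_mod_cast hT'1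
  set Z : (Fin m → ℤ) → ℂ := fun n => ∑ j, (n j : ℂ) * η j.succ with hZ
  -- one line
  have hl : ∀ n : Fin m → ℤ, (∀ j, |n j| ≤ T) →
      ((((Finset.Icc (-(T : ℤ)) T).filter fun a : ℤ => Rel δ V (fun s => Complex.log (((a : ℂ) + Z n) + θ s)))).card : ℝ) ≤
        C * (C₂ + 1) * (T : ℝ) ^ (1 - c) := by
    intro n hn
    have hZn : ‖Z n‖ ≤ T' := by
      rw [hZ]
      simp only
      refine (norm_sum_le _ _).trans ?_
      have h1 : ∀ j ∈ (Finset.univ : Finset (Fin m)), ‖(n j : ℂ) * η j.succ‖ ≤ T * ‖η j.succ‖ := by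
        intro j _
        rw [norm_mul, Complex.norm_intCast]
        refine mul_le_mul_of_nonneg_right ?_ (norm_nonneg _)
        have h2 : ((|n j| : ℤ) : ℝ) ≤ T := by exact_mod_cast hn j
        push_cast at h2
        exact h2
      refine (Finset.sum_le_sum h1).trans ?_
      rw [← Finset.mul_sum]
      have h3 : ∑ j : Fin m, ‖η j.succ‖ ≤ C₂ + 1 := by
        rw [Fin.sum_univ_succ] at hC₂
        linarith [norm_nonneg (η 0)]
      rw [hT']
      push_cast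
      rw [mul_comm]
      exact mul_le_mul_of_nonneg_right h3 hT0.le
    have h4 := hline T' hT'1 (Z n) hZn (fun a : ℤ => Rel δ V (fun s => Complex.log (((a : ℂ) + Z n) + θ s))) (by
      intro ε hε H t ht hTt hHt S hS
      have hnorm1 : (2 : ℝ) ^ N₁ ≤ ‖Z n + t‖ := by
        refine le_trans ?_ hHt
        have hH : (2 : ℝ) ≤ (H : ℝ) + 2 := by linarith [(Nat.cast_nonneg H : (0 : ℝ) ≤ H)]
        calc (2 : ℝ) ^ N₁ ≤ ((H : ℝ) + 2) ^ N₁ := pow_le_pow_left₀ (by norm_num) hH _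
          _ ≤ _ := pow_le_pow_right₀ (by linarith) (by omega)
      set n' : Fin (m + 1) → ℤ := Fin.cons t n with hn'
      have hξ : ((∑ j, (n' j : K₁) * ηK j : K₁) : ℂ) = Z n + t := by
        push_cast
        rw [Fin.sum_univ_succ]
        simp only [hn', Fin.cons_zero, Fin.cons_succ, hηK, hη0, mul_one, hZ]
        ring
      have hn'b : ∀ j, |(n' j : ℝ)| ≤ 10 * T' := by
        intro j
        refine Fin.cases ?_ (fun j => ?_) j
        · have h5 : ((|t| : ℤ) : ℝ) ≤ 10 * T' := by exact_mod_cast ht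
          push_cast at h5
          simpa [hn'] using h5
        · have h5 : ((|n j| : ℤ) : ℝ) ≤ T := by exact_mod_cast hn j
          have h6 : (T : ℝ) ≤ T' := by exact_mod_cast hTT'
          push_cast at h5
          simp only [hn', Fin.cons_succ]
          linarith
      have hPt := hpt (10 * T') (by linarith) n' hn'b
      refine hwin V hV hVD H K₁ (∑ j, (n' j : K₁) * ηK j) (C₁ * (10 * T')) hfd le_rfl hPt ?_ ?_ ε hε S ?_
      · rw [hξ]
        refine le_trans ?_ hHt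
        exact pow_le_pow_right₀ (by linarith [(Nat.cast_nonneg H : (0 : ℝ) ≤ H)]) (by omega)
      · rw [hξ]
        calc C₁ * (10 * T') = (10 * C₁) * T' := by ring
          _ ≤ ‖Z n + t‖ * ‖Z n + t‖ ^ 4 :=
              mul_le_mul (hN₁.le.trans hnorm1) hTt (by positivity) (norm_nonneg _)
          _ = ‖Z n + t‖ ^ 5 := by ring
      · intro g hg
        obtain ⟨hgH, hgR⟩ := hS g hg
        refine ⟨hgH, ?_⟩
        rw [hξ]
        have h5 : (fun s => Complex.log ((((t - ε * g : ℤ)) : ℂ) + Z n + θ s)) =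
            fun s => Complex.log (Z n + t - ε * g + θ s) := by
          funext s
          congr 1
          push_cast
          ring
        rw [← h5]
        exact hgR)
    have h5 : ((Finset.Icc (-(T : ℤ)) T).filter fun a : ℤ => Rel δ V (fun s => Complex.log (((a : ℂ) + Z n) + θ s))).card ≤
        ((Finset.Icc (-(T' : ℤ)) T').filter fun a : ℤ => Rel δ V (fun s => Complex.log (((a : ℂ) + Z n) + θ s))).card := by
      refine Finset.card_le_card (Finset.filter_subset_filter _ (Finset.Icc_subset_Icc ?_ ?_))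
      · have : (T : ℤ) ≤ T' := by exact_mod_cast hTT'
        omega
      · exact_mod_cast hTT'
    have h6 : (T' : ℝ) ^ (1 - c) ≤ (C₂ + 1) * (T : ℝ) ^ (1 - c) := by
      rw [hT']
      push_cast
      rw [Real.mul_rpow (by positivity) hT0.le]
      refine mul_le_mul_of_nonneg_right ?_ (by positivity)
      have h7 : (1 : ℝ) ≤ (C₂ : ℝ) + 1 := by linarith [(Nat.cast_nonneg C₂ : (0 : ℝ) ≤ C₂)]
      calc ((C₂ : ℝ) + 1) ^ (1 - c) ≤ ((C₂ : ℝ) + 1) ^ (1 : ℝ) := Real.rpow_le_rpow_of_exponent_le h7 (by linarith)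
        _ = (C₂ : ℝ) + 1 := Real.rpow_one _
    calc _ ≤ (((Finset.Icc (-(T' : ℤ)) T').filter fun a : ℤ => Rel δ V (fun s => Complex.log (((a : ℂ) + Z n) + θ s))).card : ℝ) := by
          exact_mod_cast h5
      _ ≤ C * (T' : ℝ) ^ (1 - c) := h4
      _ ≤ C * ((C₂ + 1) * (T : ℝ) ^ (1 - c)) := mul_le_mul_of_nonneg_left h6 hC
      _ = _ := by ring
  -- all lines
  set bad : (Fin m → ℤ) → Finset ℤ := fun n => (Finset.Icc (-(T : ℤ)) T).filter fun a : ℤ =>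
    Rel δ V (fun s => Complex.log (((a : ℂ) + Z n) + θ s)) with hbad
  have hsub : ((Fintype.piFinset fun _ : Fin (m + 1) => Finset.Icc (-(T : ℤ)) T).filter fun n =>
      Rel δ V (fun s => Complex.log ((∑ j, (n j : ℂ) * η j) + θ s))) ⊆
      ((Fintype.piFinset fun _ : Fin m => Finset.Icc (-(T : ℤ)) T).sigma bad).image
        fun p => (Fin.cons p.2 p.1 : Fin (m + 1) → ℤ) := by
    intro n hn
    obtain ⟨hn1, hn2⟩ := Finset.mem_filter.1 hn
    rw [Fintype.mem_piFinset] at hn1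
    refine Finset.mem_image.2 ⟨⟨fun j => n j.succ, n 0⟩, ?_, ?_⟩
    · refine Finset.mem_sigma.2 ⟨?_, Finset.mem_filter.2 ⟨hn1 0, ?_⟩⟩
      · rw [Fintype.mem_piFinset]
        exact fun j => hn1 j.succ
      · have h1 : ((n 0 : ℤ) : ℂ) + Z (fun j => n j.succ) = ∑ j, (n j : ℂ) * η j := by
          rw [Fin.sum_univ_succ, hη0, mul_one]
        simp only [h1]
        exact hn2
    · funext j
      refine Fin.cases ?_ (fun j => ?_) j <;> simp
  have hbox : (((Fintype.piFinset fun _ : Fin m => Finset.Icc (-(T : ℤ)) T).card : ℕ) : ℝ) ≤ (3 * T) ^ m := by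
    rw [Fintype.card_piFinset]
    simp only [Finset.prod_const, Finset.card_univ, Fintype.card_fin, Int.card_Icc]
    rw [Nat.cast_pow]
    refine pow_le_pow_left₀ (Nat.cast_nonneg _) ?_ _
    have h1 : ((T : ℤ) + 1 - -(T : ℤ)).toNat = 2 * T + 1 := by omega
    rw [h1]
    push_cast
    linarith
  have h1 : (((Fintype.piFinset fun _ : Fin (m + 1) => Finset.Icc (-(T : ℤ)) T).filter fun n =>
      Rel δ V (fun s => Complex.log ((∑ j, (n j : ℂ) * η j) + θ s))).card : ℝ) ≤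
      ∑ n ∈ Fintype.piFinset (fun _ : Fin m => Finset.Icc (-(T : ℤ)) T), ((bad n).card : ℝ) := by
    have h2 := (Finset.card_le_card hsub).trans Finset.card_image_le
    rw [Finset.card_sigma] at h2
    exact_mod_cast h2
  refine h1.trans ?_
  have h2 : ∀ n ∈ Fintype.piFinset (fun _ : Fin m => Finset.Icc (-(T : ℤ)) T), ((bad n).card : ℝ) ≤
      C * (C₂ + 1) * (T : ℝ) ^ (1 - c) := by
    intro n hn
    rw [Fintype.mem_piFinset] at hn
    exact hl n fun j => abs_le.2 (Finset.mem_Icc.1 (hn j))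
  refine (Finset.sum_le_card_nsmul _ _ _ h2).trans ?_
  rw [nsmul_eq_mul]
  calc _ ≤ (3 * (T : ℝ)) ^ m * (C * (C₂ + 1) * (T : ℝ) ^ (1 - c)) := mul_le_mul_of_nonneg_right hbox (by positivity)
    _ = 3 ^ m * (C * (C₂ + 1)) * (T : ℝ) ^ (((m + 1 : ℕ) : ℝ) - c) := by
        have h3 : (((m + 1 : ℕ) : ℝ) - c) = (m : ℝ) + (1 - c) := by push_cast; ring
        rw [h3, Real.rpow_add hT0, Real.rpow_natCast, mul_pow]
        ring

/-- almost all tuples -/
theorem lattice_tuples {m r : ℕ} (ω : Fin (m + 1) → ℂ) (hω : ∀ j, IsAlgebraic ℚ (ω j)) (hω0 : ω 0 ≠ 0) (θ : Fin r → ℂ)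
    (hθ : ∀ j, IsAlgebraic ℚ (θ j)) (hinj : Function.Injective θ) (k δ D : ℕ) :
    ∃ c : ℝ, 0 < c ∧ ∃ C : ℝ, ∀ V : Submodule ℚ ℂ, Module.Finite ℚ V → finrank ℚ V ≤ D → ∀ T : ℕ, 1 ≤ T →
      {n : Fin k → Fin (m + 1) → ℤ | (∀ i j, |n i j| ≤ T) ∧ ∃ l : Fin k × Fin r → ℂ,
        (∀ p, Complex.exp (l p) = (∑ j, (n p.1 j : ℂ) * ω j) + θ p.2) ∧ Rel δ V l}.Finite ∧
      ({n : Fin k → Fin (m + 1) → ℤ | (∀ i j, |n i j| ≤ T) ∧ ∃ l : Fin k × Fin r → ℂ,
        (∀ p, Complex.exp (l p) = (∑ j, (n p.1 j : ℂ) * ω j) + θ p.2) ∧ Rel δ V l}.ncard : ℝ)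
        ≤ C * (T : ℝ) ^ (((k * (m + 1) : ℕ) : ℝ) - c) := by
  classical
  set η : Fin (m + 1) → ℂ := fun j => ω j / ω 0 with hη
  set θ' : Fin r → ℂ := fun s => θ s / ω 0 with hθ'
  set x : (Fin (m + 1) → ℤ) → Fin r → ℂ := fun n s => Complex.log ((∑ j, (n j : ℂ) * η j) + θ' s) with hx
  have hdiv : ∀ {a b : ℂ}, IsAlgebraic ℚ a → IsAlgebraic ℚ b → IsAlgebraic ℚ (a / b) := fun ha hb => by
    rw [div_eq_mul_inv]
    exact IsAlgebraic.mul ha hb.inv
  have hηa : ∀ j, IsAlgebraic ℚ (η j) := fun j => hdiv (hω j) (hω 0)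
  have hθ'a : ∀ j, IsAlgebraic ℚ (θ' j) := fun j => hdiv (hθ j) (hω 0)
  have hη0 : η 0 = 1 := div_self hω0
  have hinj' : Function.Injective θ' := by
    intro i j hij
    exact hinj ((div_left_inj' hω0).1 hij)
  set u : Bool → ℂ := fun b => if b then 2 * (Real.pi : ℂ) * Complex.I else Complex.log (ω 0) with hu
  obtain ⟨c, hc, C, hC, hcount⟩ := tuples_count (fun T : ℕ => Fintype.piFinset fun _ : Fin (m + 1) => Finset.Icc (-(T : ℤ)) T)
    x (m + 1) (3 ^ (m + 1)) (by positivity) (by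
      intro T hT
      have hT1 : (1 : ℝ) ≤ T := by exact_mod_cast hT
      rw [← mul_pow, Fintype.card_piFinset]
      simp only [Finset.prod_const, Finset.card_univ, Fintype.card_fin, Int.card_Icc]
      rw [Nat.cast_pow]
      refine pow_le_pow_left₀ (Nat.cast_nonneg _) ?_ _
      have h1 : ((T : ℤ) + 1 - -(T : ℤ)).toNat = 2 * T + 1 := by omega
      rw [h1]
      push_cast
      linarith) (fun δ D => lattice_bad η hηa hη0 θ' hθ'a hinj' δ D) δ k (D * 3 ^ δ)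
  refine ⟨c, hc, C, fun V hV hVD T hT => ?_⟩
  set W : Submodule ℚ ℂ := V * (sp u) ^ δ with hW
  obtain ⟨hs1, hs2⟩ := sp_fin u
  obtain ⟨hp1, hp2⟩ := finrank_pow_le (sp u) δ
  obtain ⟨hq1, hq2⟩ := finrank_mul_le V ((sp u) ^ δ)
  have h1 := hcount W hq1 (hq2.trans (Nat.mul_le_mul hVD (hp2.trans (Nat.pow_le_pow_left (by simpa using hs2) _)))) T hT
  set B := (Fintype.piFinset fun _ : Fin k => Fintype.piFinset fun _ : Fin (m + 1) => Finset.Icc (-(T : ℤ)) T).filter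
    fun t => Rel δ W (fun p : Fin k × Fin r => x (t p.1) p.2) with hB
  have hsub : {n : Fin k → Fin (m + 1) → ℤ | (∀ i j, |n i j| ≤ T) ∧ ∃ l : Fin k × Fin r → ℂ,
        (∀ p, Complex.exp (l p) = (∑ j, (n p.1 j : ℂ) * ω j) + θ p.2) ∧ Rel δ V l} ⊆
        (B : Set (Fin k → Fin (m + 1) → ℤ)) := by
    rintro n ⟨hn, l, hl, hrel⟩
    rw [hB, Finset.mem_coe, Finset.mem_filter, Fintype.mem_piFinset]
    refine ⟨fun i => ?_, ?_⟩
    · rw [Fintype.mem_piFinset]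
      exact fun j => Finset.mem_Icc.2 (abs_le.1 (hn i j))
    · refine rel_shift u (fun p => ?_) hrel
      have h2 : (∑ j, (n p.1 j : ℂ) * ω j) + θ p.2 = ω 0 * ((∑ j, (n p.1 j : ℂ) * η j) + θ' p.2) := by
        rw [mul_add, Finset.mul_sum]
        congr 1
        · refine Finset.sum_congr rfl fun j _ => ?_
          rw [hη]
          field_simp
        · rw [hθ']
          field_simp
      have h3 : (∑ j, (n p.1 j : ℂ) * η j) + θ' p.2 ≠ 0 := by
        intro h0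
        have h4 := hl p
        rw [h2, h0, mul_zero] at h4
        exact Complex.exp_ne_zero _ h4
      obtain ⟨κ, hκ⟩ := log_mul_mem hω0 h3 (l := l p) (by rw [hl p, h2])
      rw [hx]
      simp only
      rw [hκ]
      refine Submodule.add_mem _ ?_ ?_
      · have := sp_mem u false
        simpa [hu] using this
      · have h5 := Submodule.smul_mem _ (κ : ℚ) (sp_mem u true)
        have h6 : ((κ : ℚ)) • (u true) = (κ : ℂ) * (2 * Real.pi * Complex.I) := by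
          rw [Algebra.smul_def]
          simp [hu]
        rwa [h6] at h5
  refine ⟨(Finset.finite_toSet B).subset hsub, le_trans ?_ h1⟩
  have h2 := Set.ncard_le_ncard hsub (Finset.finite_toSet B)
  rw [Set.ncard_coe_finset] at h2
  exact_mod_cast h2

/-- almost all tuples, coefficients in number fields -/
theorem lattice_nf {m r : ℕ} (ω : Fin (m + 1) → ℂ) (hω : ∀ j, IsAlgebraic ℚ (ω j)) (hω0 : ω 0 ≠ 0) (θ : Fin r → ℂ)
    (hθ : ∀ j, IsAlgebraic ℚ (θ j)) (hinj : Function.Injective θ) (k δ d D : ℕ) :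
    ∃ c : ℝ, 0 < c ∧ ∃ C : ℝ, ∀ V : Submodule ℚ ℂ, Module.Finite ℚ V → finrank ℚ V ≤ D → ∀ T : ℕ, 1 ≤ T →
      {n : Fin k → Fin (m + 1) → ℤ | (∀ i j, |n i j| ≤ T) ∧ ∃ l : Fin k × Fin r → ℂ,
        (∀ p, Complex.exp (l p) = (∑ j, (n p.1 j : ℂ) * ω j) + θ p.2) ∧ ∃ L : IntermediateField ℚ ℂ,
        FiniteDimensional ℚ L ∧ finrank ℚ L ≤ d ∧ ∃ P : MvPolynomial (Fin k × Fin r) ℂ, P ≠ 0 ∧ P.totalDegree ≤ δ ∧
        (∀ s, P.coeff s ∈ Submodule.span L (V : Set ℂ)) ∧ MvPolynomial.aeval l P = 0}.Finite ∧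
      ({n : Fin k → Fin (m + 1) → ℤ | (∀ i j, |n i j| ≤ T) ∧ ∃ l : Fin k × Fin r → ℂ,
        (∀ p, Complex.exp (l p) = (∑ j, (n p.1 j : ℂ) * ω j) + θ p.2) ∧ ∃ L : IntermediateField ℚ ℂ,
        FiniteDimensional ℚ L ∧ finrank ℚ L ≤ d ∧ ∃ P : MvPolynomial (Fin k × Fin r) ℂ, P ≠ 0 ∧ P.totalDegree ≤ δ ∧
        (∀ s, P.coeff s ∈ Submodule.span L (V : Set ℂ)) ∧ MvPolynomial.aeval l P = 0}.ncard : ℝ)
        ≤ C * (T : ℝ) ^ (((k * (m + 1) : ℕ) : ℝ) - c) := by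
  obtain ⟨c, hc, C, hC⟩ := lattice_tuples ω hω hω0 θ hθ hinj k (d ^ d * (δ + 1)) ((D + 1) ^ (d ^ d * (δ + 1)))
  refine ⟨c, hc, C, fun V hV hVD T hT => ?_⟩
  obtain ⟨hb1, hb2⟩ := NF.big (V := V) hVD (d ^ d * (δ + 1))
  obtain ⟨hf, hn⟩ := hC ((V ⊔ 1) ^ (d ^ d * (δ + 1))) hb1 hb2 T hT
  have hsub : {n : Fin k → Fin (m + 1) → ℤ | (∀ i j, |n i j| ≤ T) ∧ ∃ l : Fin k × Fin r → ℂ,
        (∀ p, Complex.exp (l p) = (∑ j, (n p.1 j : ℂ) * ω j) + θ p.2) ∧ ∃ L : IntermediateField ℚ ℂ,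
        FiniteDimensional ℚ L ∧ finrank ℚ L ≤ d ∧ ∃ P : MvPolynomial (Fin k × Fin r) ℂ, P ≠ 0 ∧ P.totalDegree ≤ δ ∧
        (∀ s, P.coeff s ∈ Submodule.span L (V : Set ℂ)) ∧ MvPolynomial.aeval l P = 0} ⊆
      {n : Fin k → Fin (m + 1) → ℤ | (∀ i j, |n i j| ≤ T) ∧ ∃ l : Fin k × Fin r → ℂ,
        (∀ p, Complex.exp (l p) = (∑ j, (n p.1 j : ℂ) * ω j) + θ p.2) ∧
        Rel (d ^ d * (δ + 1)) ((V ⊔ 1) ^ (d ^ d * (δ + 1))) l} := by
    rintro n ⟨hn, l, hl, L, hLf, hLd, P, hP0, hPd, hPc, hPv⟩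
    exact ⟨hn, l, hl, NF.rel_nf L hLd P hP0 hPd hPc hPv⟩
  refine ⟨hf.subset hsub, le_trans ?_ hn⟩
  exact_mod_cast Set.ncard_le_ncard hsub hf

end Pool.Agent.Y916.Al
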