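import Pool.Agent.Y916.Al.WinP
import Pool.Agent.Y916.Al.Lat
import Pool.Agent.Y916.Gel

/-!
# Exponentials of algebraic numbers and logarithms of algebraic numbers near an algebraic number, and of almost all tuples
-/

set_option autoImplicit false

open Module

namespace Pool.Agent.Y916.Al

open Pool.Agent.Y916.Ari Pool.Agent.Y916.Gel Pool.Agent.Y113

theorem inj_subk {l : ℕ} {κ : Type} (e : Fin l → ℂ) (he : AlgebraicIndependent ℚ e) (N : MvPolynomial (Fin l ⊕ κ) ℚ)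
    (h : MvPolynomial.aeval (Sum.elim (fun j => MvPolynomial.C (e j)) MvPolynomial.X) N
      = (0 : MvPolynomial κ ℂ)) : N = 0 := by
  have h1 : ∀ M : MvPolynomial (Fin l ⊕ κ) ℚ,
      MvPolynomial.aeval (Sum.elim (fun j => MvPolynomial.C (e j)) MvPolynomial.X) M =
      MvPolynomial.map (MvPolynomial.aeval e : MvPolynomial (Fin l) ℚ →ₐ[ℚ] ℂ).toRingHom
        (MvPolynomial.sumAlgEquiv ℚ κ (Fin l) (MvPolynomial.rename Sum.swap M)) := by
    intro M
    induction M using MvPolynomial.induction_on with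
    | C a => simp
    | add p q hp hq => rw [map_add, hp, hq, map_add, map_add, map_add]
    | mul_X p i hp =>
      rw [map_mul, hp, map_mul, map_mul, map_mul, MvPolynomial.aeval_X, MvPolynomial.rename_X]
      congr 1
      rcases i with j | i
      · simp
      · simp
  rw [h1] at h
  have h2 := MvPolynomial.map_injective (MvPolynomial.aeval e : MvPolynomial (Fin l) ℚ →ₐ[ℚ] ℂ).toRingHom he
    (h.trans (map_zero _).symm)
  have h3 := (MvPolynomial.sumAlgEquiv ℚ κ (Fin l)).injective (h2.trans (map_zero _).symm)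
  exact MvPolynomial.rename_injective _ Sum.swap_leftInverse.injective (h3.trans (map_zero _).symm)

/-- a relation over `ℚ` with constants -/
theorem rel_const {l δ : ℕ} {κ : Type} [Fintype κ] (u : Fin l → ℂ) (x : κ → ℂ) (N : MvPolynomial (Fin l ⊕ κ) ℚ)
    (hd : N.totalDegree ≤ δ) (hne : MvPolynomial.aeval (Sum.elim (fun j => MvPolynomial.C (u j)) MvPolynomial.X) N
      ≠ (0 : MvPolynomial κ ℂ)) (hv : MvPolynomial.aeval (Sum.elim u x) N = 0) : Rel δ ((sp u) ^ δ) x := by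
  classical
  set N' : MvPolynomial (Fin l ⊕ κ) ℂ := MvPolynomial.map (algebraMap ℚ ℂ) N with hN'
  have hD : DC δ (1 : Submodule ℚ ℂ) N' := by
    refine ⟨?_, fun s => ?_⟩
    · rw [hN']
      unfold MvPolynomial.totalDegree
      rw [MvPolynomial.support_map_of_injective _ (algebraMap ℚ ℂ).injective]
      exact hd
    · rw [hN', MvPolynomial.coeff_map]
      exact Submodule.algebraMap_mem _
  set L : Fin l ⊕ κ → MvPolynomial κ ℂ := Sum.elim (fun j => MvPolynomial.C (u j)) MvPolynomial.X with hL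
  have hLD : ∀ i, DC 1 (sp u) (L i) := by
    rintro (i | j)
    · refine ⟨by simp [hL], fun s => ?_⟩
      simp only [hL, Sum.elim_inl]
      rw [MvPolynomial.coeff_C]
      split_ifs
      · exact sp_mem u i
      · exact Submodule.zero_mem _
    · refine ⟨by simp [hL], fun s => ?_⟩
      simp only [hL, Sum.elim_inr]
      rw [MvPolynomial.coeff_X]
      split_ifs
      · exact sp_one u
      · exact Submodule.zero_mem _
  have hRD := DC.subst' (sp_one u) L hLD hD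
  rw [one_mul] at hRD
  have he : MvPolynomial.aeval L N' = MvPolynomial.aeval L N := by
    rw [hN', MvPolynomial.aeval_map_algebraMap]
  refine ⟨MvPolynomial.aeval L N', ?_, hRD.1, hRD.2, ?_⟩
  · rw [he]; exact hne
  · have h2 : (fun i => MvPolynomial.aeval x (L i)) = Sum.elim u x := by
      funext i
      rcases i with i | i
      · simp [hL]
      · simp [hL]
    rw [MvPolynomial.comp_aeval_apply, h2, hN', MvPolynomial.aeval_map_algebraMap]
    exact hv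

theorem gel_tuples {m r : ℕ} (ω : Fin (m + 1) → ℂ) (hω : ∀ j, IsAlgebraic ℚ (ω j)) (hω0 : ω 0 ≠ 0) (θ : Fin r → ℂ)
    (hθ : ∀ j, IsAlgebraic ℚ (θ j)) (hinj : Function.Injective θ) (k l δ d : ℕ) :
    ∃ c : ℝ, 0 < c ∧ ∃ C : ℝ, ∀ u : Fin l → ℂ, AlgebraicIndependent ℚ u → ∀ T : ℕ, 1 ≤ T →
      {n : Fin k → Fin (m + 1) → ℤ | (∀ i j, |n i j| ≤ T) ∧ ∃ x : Fin k × Fin r → ℂ,
        (∀ p, Complex.exp (x p) = (∑ j, (n p.1 j : ℂ) * ω j) + θ p.2) ∧ ∃ K : IntermediateField ℚ ℂ,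
        FiniteDimensional ℚ K ∧ finrank ℚ K ≤ d ∧ ∃ P : MvPolynomial (Fin l ⊕ Fin k × Fin r) K, P ≠ 0 ∧
        P.totalDegree ≤ δ ∧ MvPolynomial.aeval (Sum.elim u x) P = 0}.Finite ∧
      ({n : Fin k → Fin (m + 1) → ℤ | (∀ i j, |n i j| ≤ T) ∧ ∃ x : Fin k × Fin r → ℂ,
        (∀ p, Complex.exp (x p) = (∑ j, (n p.1 j : ℂ) * ω j) + θ p.2) ∧ ∃ K : IntermediateField ℚ ℂ,
        FiniteDimensional ℚ K ∧ finrank ℚ K ≤ d ∧ ∃ P : MvPolynomial (Fin l ⊕ Fin k × Fin r) K, P ≠ 0 ∧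
        P.totalDegree ≤ δ ∧ MvPolynomial.aeval (Sum.elim u x) P = 0}.ncard : ℝ)
        ≤ C * (T : ℝ) ^ (((k * (m + 1) : ℕ) : ℝ) - c) := by
  obtain ⟨c, hc, C, hC⟩ := lattice_tuples ω hω hω0 θ hθ hinj k (d ^ d * δ) ((l + 1) ^ (d ^ d * δ))
  refine ⟨c, hc, C, fun u hu T hT => ?_⟩
  obtain ⟨hs1, hs2⟩ := sp_fin u
  obtain ⟨hp1, hp2⟩ := finrank_pow_le (sp u) (d ^ d * δ)
  obtain ⟨hf, hn⟩ := hC ((sp u) ^ (d ^ d * δ)) hp1 (hp2.trans (Nat.pow_le_pow_left (by simpa using hs2) _)) T hT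
  have hsub : {n : Fin k → Fin (m + 1) → ℤ | (∀ i j, |n i j| ≤ T) ∧ ∃ x : Fin k × Fin r → ℂ,
        (∀ p, Complex.exp (x p) = (∑ j, (n p.1 j : ℂ) * ω j) + θ p.2) ∧ ∃ K : IntermediateField ℚ ℂ,
        FiniteDimensional ℚ K ∧ finrank ℚ K ≤ d ∧ ∃ P : MvPolynomial (Fin l ⊕ Fin k × Fin r) K, P ≠ 0 ∧
        P.totalDegree ≤ δ ∧ MvPolynomial.aeval (Sum.elim u x) P = 0} ⊆
      {n : Fin k → Fin (m + 1) → ℤ | (∀ i j, |n i j| ≤ T) ∧ ∃ x : Fin k × Fin r → ℂ,
        (∀ p, Complex.exp (x p) = (∑ j, (n p.1 j : ℂ) * ω j) + θ p.2) ∧ Rel (d ^ d * δ) ((sp u) ^ (d ^ d * δ)) x} := by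
    rintro n ⟨hn, x, hx, K, hKf, hKd, P, hP0, hPd, hPv⟩
    obtain ⟨N, hN0, hNd, hNv⟩ := norm_poly K hKd P hP0 hPd _ hPv
    exact ⟨hn, x, hx, rel_const u x N hNd (fun h0 => hN0 (inj_subk u hu N h0)) hNv⟩
  refine ⟨hf.subset hsub, le_trans ?_ hn⟩
  exact_mod_cast Set.ncard_le_ncard hsub hf

theorem Q_valk {l r : ℕ} {A : Type} [CommRing A] [Algebra ℚ A] [Algebra (⊥ : IntermediateField ℚ ℂ) A]
    [IsScalarTower ℚ (⊥ : IntermediateField ℚ ℂ) A] (N : MvPolynomial (Fin l ⊕ Fin r) ℚ) (w : Fin (l + 2) → A)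
    (y : Fin r → A) :
    MvPolynomial.aeval (Sum.elim w y) (MvPolynomial.map (algebraMap ℚ (⊥ : IntermediateField ℚ ℂ))
      (MvPolynomial.rename (Sum.map (Fin.castAdd 2) id) N)) =
      MvPolynomial.aeval (Sum.elim (fun j => w (Fin.castAdd 2 j)) y) N := Q_val N w y

theorem gel_windows (r d δ l m A : ℕ) : ∃ E : ℕ, ∀ (H : ℕ) (ξ : ℂ), ((H : ℝ) + 2) ^ E ≤ ‖ξ‖ → Ht m A ξ →
    ∀ u : Fin l → ℂ, AlgebraicIndependent ℚ u →
    ∃ S : Finset ℂ, S.card ≤ l + 2 ∧ ∀ β : Fin r → ℂ, Function.Injective β → (∀ i, β i ∉ S ∧ β i ≠ 0 ∧ Adm d H (β i)) →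
      ∀ x : Fin r → ℂ, (∀ i, Complex.exp (x i) = ξ + β i) →
      ∀ K : IntermediateField ℚ ℂ, FiniteDimensional ℚ K → finrank ℚ K ≤ d →
      ∀ P : MvPolynomial (Fin l ⊕ Fin r) K, P ≠ 0 → P.totalDegree ≤ δ →
        MvPolynomial.aeval (Sum.elim u x) P ≠ 0 := by
  classical
  obtain ⟨E, hE1, hE⟩ := windowP r (d + 1) (d ^ d * δ) (l + 2) 1 1 m A
  refine ⟨E, fun H ξ hξ hHt u hu => ?_⟩
  have hξ0 : ξ ≠ 0 := by
    rw [← norm_pos_iff]
    have hH : (0 : ℝ) < (H : ℝ) + 2 := by linarith [(Nat.cast_nonneg H : (0 : ℝ) ≤ H)]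
    exact lt_of_lt_of_le (by positivity) hξ
  set w : Fin (l + 2) → ℂ := Fin.append u ![Complex.log ξ, 2 * Real.pi * Complex.I] with hw
  obtain ⟨S, hS, h⟩ := hE H ξ hξ hHt (Fin (l + 2)) w Finset.univ (by rw [Finset.card_univ, Fintype.card_fin])
    (Pool.Agent.Y916.Om.Dom.univ w)
  refine ⟨S, hS, ?_⟩
  intro β hinj hβ x hx K hK hKd P hP0 hPd hPv
  obtain ⟨N, hN0, hNd, hNv⟩ := norm_poly K hKd P hP0 hPd _ hPv
  have hst : ∀ i, ∃ a : (⊥ : IntermediateField ℚ ℂ), a ≠ 0 ∧ x i - a * Complex.log (1 + β i / ξ) ∈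
      Submodule.span (⊥ : IntermediateField ℚ ℂ) (insert 1 (Set.range w)) := by
    intro i
    refine ⟨1, one_ne_zero, ?_⟩
    have h1 : (1 : ℂ) + β i / ξ ≠ 0 := by
      intro h0
      have h2 : ξ + β i = 0 := by
        have h3 : ξ * (1 + β i / ξ) = ξ + β i := by
          field_simp
        rw [← h3, h0, mul_zero]
      rw [← hx i] at h2
      exact Complex.exp_ne_zero _ h2
    obtain ⟨κ, hκ⟩ := log_mul_mem hξ0 h1 (l := x i) (by
      rw [hx i]
      field_simp)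
    have h3 : x i - ((1 : (⊥ : IntermediateField ℚ ℂ)) : ℂ) * Complex.log (1 + β i / ξ) =
        w (Fin.natAdd l 0) + (κ : ℂ) * w (Fin.natAdd l 1) := by
      have h5 : ((1 : (⊥ : IntermediateField ℚ ℂ)) : ℂ) = 1 := rfl
      rw [h5, one_mul, hκ, hw, Fin.append_right, Fin.append_right]
      simp
    rw [h3]
    refine Submodule.add_mem _ (Submodule.subset_span (Set.mem_insert_of_mem _ ⟨_, rfl⟩)) ?_
    have h4 : (κ : ℂ) * w (Fin.natAdd l 1) = (κ : (⊥ : IntermediateField ℚ ℂ)) • w (Fin.natAdd l 1) := by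
      rw [Algebra.smul_def]
      simp
    rw [h4]
    exact Submodule.smul_mem _ _ (Submodule.subset_span (Set.mem_insert_of_mem _ ⟨_, rfl⟩))
  refine hN0 ?_
  refine inj_sub _ hu N ?_
  set Q : MvPolynomial (Fin (l + 2) ⊕ Fin r) (⊥ : IntermediateField ℚ ℂ) :=
    MvPolynomial.map (algebraMap ℚ _) (MvPolynomial.rename (Sum.map (Fin.castAdd 2) id) N) with hQ
  have hwe : ∀ j : Fin l, w (Fin.castAdd 2 j) = u j := by
    intro j
    rw [hw, Fin.append_left]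
  have key := h β hinj (fun i => ⟨(hβ i).1, (hβ i).2.1, by
      obtain ⟨p, h1, h2, h3, h4⟩ := (hβ i).2.2
      exact ⟨p, h1, h2.trans (by omega), h3, h4⟩⟩) ⊥ inferInstance (by rw [IntermediateField.finrank_bot]; omega) x hst Q (by
        refine le_trans (le_trans (le_of_eq ?_) (MvPolynomial.totalDegree_rename_le (Sum.map (Fin.castAdd 2) id) N)) hNd
        rw [hQ]
        unfold MvPolynomial.totalDegree
        rw [MvPolynomial.support_map_of_injective _ (algebraMap ℚ _).injective]) (by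
        rw [hQ, Q_val]
        simp only [hwe]
        exact hNv)
  rw [hQ, Q_val] at key
  simp only [hwe] at key
  exact key

end Pool.Agent.Y916.Al
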