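import Pool.Agent.Y916.Al.Ev
import Pool.Agent.Y916.Stm

/-!
# Values of G-functions at algebraic points (MP_60829e_nt): definitions and statements of the parts

`K` is a number field in `ℂ`, `x` an element of `K` which is a quotient of two integers all of whose conjugates are at
most `X`, `|x|` is small and `X ≤ |x|^(-A)`. Then the values at `x` of `N` functions (a G-system) generate a space of
dimension greater than `N / (2 A m)` over `K`, `m = [K : ℚ]`.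
-/

set_option autoImplicit false

open PowerSeries Finset.HasAntidiagonal

namespace Pool.Agent.Y916.Al

open Pool.Agent.Y113

/-- the divided derivative over a field -/
noncomputable def hdF {F : Type} [Field F] (k : ℕ) (f : F⟦X⟧) : F⟦X⟧ :=
  PowerSeries.mk fun m => ((m + k).choose k : F) * coeff (m + k) f

/-- the derived vector of order `k` -/
noncomputable def PdF {F : Type} [Field F] {N : ℕ} (T : Polynomial F) (G : ℕ → Fin N → Fin N → Polynomial F)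
    (P : Fin N → Polynomial F) (k : ℕ) : Fin N → Polynomial F :=
  fun j => ∑ p ∈ antidiagonal k, ∑ i, T ^ p.1 * Polynomial.hasseDeriv p.1 (P i) * G p.2 i j

/-- (RANK) the derived vectors span at the point `ξ` (the version over an arbitrary field of `Y113.rank_point`) -/
def S_rank : Prop := ∀ (F : Type) [Field F] [CharZero F] (N : ℕ) (T : Polynomial F) (B : Fin N → Fin N → Polynomial F)
  (y : Fin N → F⟦X⟧), (∀ i, (T : F⟦X⟧) * d⁄dX F (y i) = ∑ j, (B i j : F⟦X⟧) * y j) →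
  LinearIndependent (Polynomial F) y → ∀ i₀ : Fin N, y i₀ = 1 → ∀ ξ : F, ξ ≠ 0 → T.eval ξ ≠ 0 →
  ∃ c₁ : ℕ, ∀ (n m K : ℕ) (P : Fin N → Polynomial F), P ≠ 0 → (∀ i, (P i).natDegree ≤ n) →
    (∀ l < m, coeff l (∑ i, (P i : F⟦X⟧) * y i) = 0) → (N - 1) * n + c₁ < m → N * n + c₁ < m + K →
    ∀ (g : F) (G : ℕ → Fin N → Fin N → Polynomial F), g ≠ 0 →
    (∀ s ≤ K, ∀ i, C g * ((T : F⟦X⟧) ^ s * hdF s (y i)) = ∑ j, (G s i j : F⟦X⟧) * y j) →
    ∀ v : Fin N → F, (∀ k ≤ K, ∑ j, (PdF T G P k j).eval ξ * v j = 0) → v = 0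

/-- (EXT) linear independence and extension of the constants -/
def S_ext : Prop := ∀ (F : Type) [Field F] [CharZero F] [Algebra ℚ F] (N : ℕ) (y : Fin N → ℚ⟦X⟧),
  LinearIndependent (Polynomial ℚ) y →
  LinearIndependent (Polynomial F) (fun i => PowerSeries.map (algebraMap ℚ F) (y i))

/-- (MAT) an invertible matrix which contains given independent rows -/
def S_mat : Prop := ∀ (K : Type) [Field K] (N R : ℕ) (κ : Type) (a : Fin R → Fin N → K) (z : κ → Fin N → K),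
  LinearIndependent K a → (∀ v : Fin N → K, (∀ k, ∑ j, z k j * v j = 0) → v = 0) →
  ∃ (M : Matrix (Fin N) (Fin N) K) (I : Finset (Fin N)), M.det ≠ 0 ∧ I.card = R ∧ (∀ r ∈ I, ∃ s, M r = a s) ∧
    ∀ r, r ∉ I → ∃ k, M r = z k

/-- (DET) the product formula for the determinant -/
def S_det : Prop := ∀ (m N : ℕ) (K : IntermediateField ℚ ℂ), FiniteDimensional ℚ K → Module.finrank ℚ K ≤ m →
  ∀ (M : Matrix (Fin N) (Fin N) K) (I : Finset (Fin N)) (i₀ : Fin N) (Y : Fin N → ℂ) (A Z L : ℝ), M.det ≠ 0 →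
  (∀ r j, IsIntegral ℤ (M r j)) → Y i₀ = 1 → 1 ≤ A → 1 ≤ Z → 0 ≤ L →
  (∀ r ∈ I, ∑ j, (M r j : ℂ) * Y j = 0) → (∀ r, r ∉ I → ‖∑ j, (M r j : ℂ) * Y j‖ ≤ L) →
  (∀ r ∈ I, ∀ (j : Fin N) (σ : K →+* ℂ), ‖σ (M r j)‖ ≤ A) → (∀ r, r ∉ I → ∀ (j : Fin N) (σ : K →+* ℂ), ‖σ (M r j)‖ ≤ Z) →
  1 ≤ N * L * (N.factorial * A ^ N * Z ^ (N - I.card)) ^ m

/-- `x` is a quotient of two integers of `K` all of whose conjugates are at most `X` -/
def Pt (K : IntermediateField ℚ ℂ) (x : K) (X : ℝ) : Prop :=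
  ∃ u w : K, IsIntegral ℤ u ∧ IsIntegral ℤ w ∧ w ≠ 0 ∧ x = u / w ∧ ∀ σ : K →+* ℂ, ‖σ u‖ ≤ X ∧ ‖σ w‖ ≤ X

/-- (GK) the main theorem on G-systems at algebraic points -/
def S_GK : Prop := ∀ m A N q : ℕ, ∃ E : ℕ, ∀ (C : ℝ) (T : Polynomial ℤ) (y : Fin N → ℚ⟦X⟧) (i₀ : Fin N)
  (K : IntermediateField ℚ ℂ) (x : K) (X : ℝ), FiniteDimensional ℚ K → Module.finrank ℚ K ≤ m → x ≠ 0 → Pt K x X →
  GSys q C T y → y i₀ = 1 → LinearIndependent (Polynomial ℚ) y → ‖(x : ℂ)‖ * (2 * C) ^ E ≤ 1 → X * ‖(x : ℂ)‖ ^ A ≤ 1 →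
  Polynomial.aeval (x : ℂ) T ≠ 0 → ∀ (R : ℕ) (a : Fin R → Fin N → K), LinearIndependent K a →
  (∀ r, ∑ i, (a r i : ℂ) * evc (x : ℂ) (y i) = 0) → 2 * A * m * (N - R) ≤ N → False

/-- (VALC) the values at `x` have no polynomial relation of degree at most `Δ` over `ℚ` -/
def S_valc : Prop := ∀ n Δ m A : ℕ, ∃ E : ℕ, ∀ (H : ℕ) (T : Polynomial ℤ) (K : IntermediateField ℚ ℂ) (x : K) (X : ℝ),
  FiniteDimensional ℚ K → Module.finrank ℚ K ≤ m → x ≠ 0 → Pt K x X → ‖(x : ℂ)‖ * ((H : ℝ) + 2) ^ E ≤ 1 →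
  X * ‖(x : ℂ)‖ ^ A ≤ 1 → T.coeff 0 = 1 → T.natDegree = n → Squarefree (T.map (Int.castRingHom ℚ)) →
  (∀ l, |T.coeff l| ≤ H) → ∀ P : MvPolynomial (Fin n) ℚ, P.totalDegree ≤ Δ →
  MvPolynomial.aeval (fun s : Fin n => evc (x : ℂ) (F T s)) P = 0 → P = 0

/-- (PARTC) partial fractions, complex argument -/
def S_partc : Prop := ∀ (Θ : Finset ℂ) (T : Polynomial ℤ), (0 : ℂ) ∉ Θ →
  T.map (Int.castRingHom ℂ) = ∏ θ ∈ Θ, (1 - Polynomial.C θ * Polynomial.X) →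
  ∀ s < Θ.card, ∃ b : ℂ → ℂ, (∀ θ, b θ ∈ IntermediateField.adjoin ℚ (Θ : Set ℂ)) ∧
    ∀ x : ℂ, (∀ θ ∈ Θ, ‖θ‖ * ‖x‖ < 1) → evc x (F T s) = ∑ θ ∈ Θ, b θ * Complex.log (1 - θ * x)

end Pool.Agent.Y916.Al
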