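import Pool.Agent.Y916.Al.Win
import Pool.Agent.Y916.Al.Cnt
import Pool.Agent.Y916.TupN

/-!
# Logarithms of algebraic numbers of a lattice: almost all tuples
-/

set_option autoImplicit false

open Module

namespace Pool.Agent.Y916.Al

open Pool.Agent.Y916.Ari Pool.Agent.Y113

/-- shifts of the numbers of a relation -/
theorem rel_shift {ι υ : Type} [Fintype ι] {δ : ℕ} {V : Submodule ℚ ℂ} (u : υ → ℂ) {y l : ι → ℂ}
    (h : ∀ i, l i - y i ∈ sp u) (hrel : Rel δ V l) : Rel δ (V * (sp u) ^ δ) y := by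
  classical
  obtain ⟨P, hP0, hPd, hPc, hPv⟩ := hrel
  set L : ι → MvPolynomial ι ℂ := fun i => MvPolynomial.X i + MvPolynomial.C (l i - y i) with hL
  have hLD : ∀ i, DC 1 (sp u) (L i) := by
    intro i
    refine ⟨?_, fun s => ?_⟩
    · refine (MvPolynomial.totalDegree_add _ _).trans (max_le (MvPolynomial.totalDegree_X i).le ?_)
      rw [MvPolynomial.totalDegree_C]
      exact Nat.zero_le _
    · rw [hL, MvPolynomial.coeff_add, MvPolynomial.coeff_X', MvPolynomial.coeff_C]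
      refine Submodule.add_mem _ ?_ ?_
      · split_ifs
        · exact sp_one _
        · exact Submodule.zero_mem _
      · split_ifs
        · exact h i
        · exact Submodule.zero_mem _
  have hQ := DC.subst' (sp_one u) L hLD ⟨hPd, hPc⟩
  refine ⟨MvPolynomial.aeval L P, ?_, hQ.1, hQ.2, ?_⟩
  · intro h0
    apply hP0
    have h2 : (MvPolynomial.aeval (fun i => MvPolynomial.X i - MvPolynomial.C (l i - y i)) :
        MvPolynomial ι ℂ →ₐ[ℂ] MvPolynomial ι ℂ).comp (MvPolynomial.aeval L) = AlgHom.id ℂ _ := by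
      refine MvPolynomial.algHom_ext fun i => ?_
      simp [hL]
    have h3 := DFunLike.congr_fun h2 P
    rw [AlgHom.comp_apply, h0, map_zero, AlgHom.id_apply] at h3
    exact h3.symm
  · have h2 : (MvPolynomial.aeval y : MvPolynomial ι ℂ →ₐ[ℂ] ℂ).comp
        (MvPolynomial.aeval L) = MvPolynomial.aeval l := by
      refine MvPolynomial.algHom_ext fun i => ?_
      simp [hL]
    exact (DFunLike.congr_fun h2 P).trans hPv

theorem rel_mono {ι : Type} {δ : ℕ} {V V' : Submodule ℚ ℂ} (hV : V ≤ V') {x : ι → ℂ} (h : Rel δ V x) : Rel δ V' x := by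
  obtain ⟨P, hP0, hPd, hPc, hPv⟩ := h
  exact ⟨P, hP0, hPd, fun s => hV (hPc s), hPv⟩

theorem adm_neg {d h : ℕ} {z : ℂ} (hz : Adm d h z) : Adm d h (-z) := by
  obtain ⟨p, hp0, hpd, hpH, hpz⟩ := hz
  refine ⟨Polynomial.scaleRoots p (-1), ?_, ?_, ?_, ?_⟩
  · exact Polynomial.scaleRoots_ne_zero hp0 _
  · rw [Polynomial.natDegree_scaleRoots]; exact hpd
  · intro l
    rw [Polynomial.coeff_scaleRoots, abs_mul, abs_pow, abs_neg, abs_one, one_pow, mul_one]
    exact hpH l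
  · have h1 := Polynomial.scaleRoots_aeval_eq_zero (r := (-1 : ℤ)) hpz
    have h2 : (algebraMap ℤ ℂ) (-1) * z = -z := by simp
    rwa [h2] at h1

/-- the logarithm of a product -/
theorem log_mul_mem {ξ z l : ℂ} (hξ : ξ ≠ 0) (hz : z ≠ 0) (hl : Complex.exp l = ξ * z) :
    ∃ k : ℤ, l - Complex.log z = Complex.log ξ + k * (2 * Real.pi * Complex.I) := by
  have h1 : Complex.exp l = Complex.exp (Complex.log ξ + Complex.log z) := by
    rw [Complex.exp_add, Complex.exp_log hξ, Complex.exp_log hz, hl]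
  obtain ⟨k, hk⟩ := Complex.exp_eq_exp_iff_exists_int.1 h1
  exact ⟨k, by rw [hk]; ring⟩

/-- windows around algebraic points -/
theorem hwinA {r : ℕ} (θ : Fin r → ℂ) (hθ : Function.Injective θ) (d h : ℕ) (hadm : ∀ j, Adm d h (θ j)) (m A δ D : ℕ) :
    ∃ M E : ℕ, ∀ (V : Submodule ℚ ℂ), Module.Finite ℚ V → finrank ℚ V ≤ D → ∀ (H : ℕ) (K₁ : IntermediateField ℚ ℂ)
      (ξ : K₁) (X : ℝ), FiniteDimensional ℚ K₁ → finrank ℚ K₁ ≤ m → Pt K₁ ξ X → ((H : ℝ) + 2) ^ E ≤ ‖(ξ : ℂ)‖ →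
      X ≤ ‖(ξ : ℂ)‖ ^ A → ∀ ε : ℤ, (ε = 1 ∨ ε = -1) →
      ∀ S : Finset ℕ, (∀ g ∈ S, g ≤ H ∧ Rel δ V (fun j => Complex.log ((ξ : ℂ) - ε * g + θ j))) → S.card ≤ M := by
  classical
  obtain ⟨E0, hE0⟩ := windowA r (d + 1) (δ + 1) (D + 2) m A
  set e := 3 * d + h + 1 with he
  refine ⟨r * (D + 3), (e + 2) * E0 + (e + 2), ?_⟩
  intro V hV hVD H K₁ ξ X hK₁f hK₁d hPt hξ hXξ ε hε S hS
  set V' : Submodule ℚ ℂ := V ⊔ Submodule.span ℚ {2 * (Real.pi : ℂ) * Complex.I} with hV'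
  have hV'f : Module.Finite ℚ V' := Submodule.finite_sup V _
  have hV'd : finrank ℚ V' ≤ D + 1 := by
    have h1 := Submodule.finrank_add_le_finrank_add_finrank V (Submodule.span ℚ {2 * (Real.pi : ℂ) * Complex.I})
    have h2 : finrank ℚ (Submodule.span ℚ {2 * (Real.pi : ℂ) * Complex.I}) = 1 :=
      finrank_span_singleton Complex.two_pi_I_ne_zero
    exact h1.trans (Nat.add_le_add hVD h2.le)
  obtain ⟨w, c, hwc⟩ := coords V' hV'f (D + 1) hV'd
  set w' : Fin (D + 2) → ℂ := Fin.cons (Complex.log (ξ : ℂ)) w with hw'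
  have hHR : (1 : ℝ) ≤ (H : ℝ) + 2 := by linarith [(Nat.cast_nonneg H : (0 : ℝ) ≤ H)]
  have hH2 : (H + 2) ^ e + 2 ≤ (H + 2) ^ (e + 2) := by
    have h1 : 1 ≤ (H + 2) ^ e := Nat.one_le_pow _ _ (by omega)
    have h2 : (H + 2) ^ (e + 2) = (H + 2) ^ e * ((H + 2) * (H + 2)) := by ring
    have h7 : 2 * 2 ≤ (H + 2) * (H + 2) := Nat.mul_le_mul (by omega) (by omega)
    have h8 := Nat.mul_le_mul_left ((H + 2) ^ e) h7
    rw [h2]
    omega
  have ht1 : ((((H + 2) ^ e : ℕ) : ℝ) + 2) ^ E0 ≤ ‖(ξ : ℂ)‖ := by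
    refine le_trans ?_ hξ
    have h1 : ((H + 2) ^ e + 2) ^ E0 ≤ (H + 2) ^ ((e + 2) * E0 + (e + 2)) := by
      refine (Nat.pow_le_pow_left hH2 _).trans ?_
      rw [← pow_mul]
      exact Nat.pow_le_pow_right (by omega) (by omega)
    exact_mod_cast h1
  have ht2 : (((H + 2) ^ e : ℕ) : ℝ) + 2 ≤ ‖(ξ : ℂ)‖ := by
    refine le_trans ?_ hξ
    have h1 : (H + 2) ^ e + 2 ≤ (H + 2) ^ ((e + 2) * E0 + (e + 2)) :=
      hH2.trans (Nat.pow_le_pow_right (by omega) (by omega))
    exact_mod_cast h1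
  have hξ0 : (ξ : ℂ) ≠ 0 := by
    rw [← norm_pos_iff]
    have : (0 : ℝ) ≤ (((H + 2) ^ e : ℕ) : ℝ) := Nat.cast_nonneg _
    linarith
  obtain ⟨X', hX', hwin⟩ := hE0 ((H + 2) ^ e) K₁ ξ X hK₁f hK₁d hPt ht1 hXξ ⊥ inferInstance (by
    rw [IntermediateField.finrank_bot]
    omega) w'
  have hbad : ∀ g ∈ S, ∃ j : Fin r, θ j - ε * g ∈ insert 0 X' := by
    intro g hg
    obtain ⟨hgH, hgrel⟩ := hS g hg
    obtain ⟨P, hP0, hPd, hPc, hPv⟩ := rel_mono (le_sup_left : V ≤ V') hgrel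
    by_contra hcon
    push Not at hcon
    have hadm' : ∀ j, Adm (d + 1) ((H + 2) ^ e) (θ j - ε * g) := by
      intro j
      rcases hε with rfl | rfl
      · obtain ⟨p, h1, h2, h3, h4⟩ := adm_shift (hadm j) hgH
        refine ⟨p, h1, by omega, h3, ?_⟩
        simpa using h4
      · obtain ⟨p, h1, h2, h3, h4⟩ := adm_neg (adm_shift (adm_neg (hadm j)) hgH)
        refine ⟨p, h1, by omega, h3, ?_⟩
        have h5 : θ j - ((-1 : ℤ) : ℂ) * g = -(-θ j - g) := by
          push_cast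
          ring
        rw [h5]
        exact h4
    have hβ : ∀ j, θ j - ε * g ∉ X' ∧ θ j - ε * g ≠ 0 ∧ Adm (d + 1) ((H + 2) ^ e) (θ j - ε * g) := by
      intro j
      have h1 := hcon j
      rw [Finset.mem_insert, not_or] at h1
      exact ⟨h1.2, h1.1, hadm' j⟩
    have hinj : Function.Injective fun j => θ j - (ε : ℂ) * g := by
      intro i j hij
      exact hθ (sub_left_injective hij)
    have hc : ∀ e, P.coeff e = ∑ j, ((c (P.coeff e) j : ℚ) : ℂ) * w j := fun e => hwc _ (hPc e)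
    have hpi : (2 * (Real.pi : ℂ) * Complex.I) ∈ Submodule.span (⊥ : IntermediateField ℚ ℂ) (insert 1 (Set.range w')) := by
      have h1 := hwc _ (Submodule.mem_sup_right (Submodule.subset_span rfl) :
        (2 * (Real.pi : ℂ) * Complex.I) ∈ V')
      rw [h1]
      refine Submodule.sum_mem _ fun j _ => ?_
      have h2 : ((c (2 * (Real.pi : ℂ) * Complex.I) j : ℚ) : ℂ) * w j =
          (algebraMap ℚ (⊥ : IntermediateField ℚ ℂ) (c (2 * (Real.pi : ℂ) * Complex.I) j)) • w j := rfl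
      rw [h2]
      exact Submodule.smul_mem _ _ (Submodule.subset_span (Set.mem_insert_of_mem _ ⟨j.succ, by simp [hw']⟩))
    have hl : ∀ j, Complex.log ((ξ : ℂ) - ε * g + θ j) - Complex.log (1 + (θ j - ε * g) / ξ) ∈
        Submodule.span (⊥ : IntermediateField ℚ ℂ) (insert 1 (Set.range w')) := by
      intro j
      have h5 : ((ξ : ℂ) - ε * g + θ j) ≠ 0 := by
        intro h0
        have h6 : θ j - ε * g = - (ξ : ℂ) := by linear_combination h0
        obtain ⟨p, h1, -, h3, h4⟩ := hadm' j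
        have h7 := root_bound h1 h3 h4
        rw [h6, norm_neg] at h7
        linarith
      have h6 : (ξ : ℂ) * (1 + (θ j - ε * g) / ξ) = (ξ : ℂ) - ε * g + θ j := by
        field_simp
        ring
      have h7 : (1 + (θ j - ε * g) / (ξ : ℂ)) ≠ 0 := by
        intro h0
        rw [h0, mul_zero] at h6
        exact h5 h6.symm
      obtain ⟨k, hk⟩ := log_mul_mem hξ0 h7 (l := Complex.log ((ξ : ℂ) - ε * g + θ j)) (by
        rw [Complex.exp_log h5, h6])
      rw [hk]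
      refine Submodule.add_mem _ (Submodule.subset_span (Set.mem_insert_of_mem _ ⟨0, by simp [hw']⟩)) ?_
      have h8 : (k : ℂ) * (2 * Real.pi * Complex.I) = k • (2 * Real.pi * Complex.I) := by
        rw [zsmul_eq_mul]
      rw [h8]
      exact Submodule.smul_of_tower_mem _ k hpi
    have h9 := hwin (fun j => θ j - ε * g) hinj hβ (fun j => Complex.log ((ξ : ℂ) - ε * g + θ j)) hl
      (Pool.Agent.Y916.Pt c P) (Pt_deg c P hPd) (by
        have h10 := Pt_val w c (Complex.log (ξ : ℂ)) P hc (A := ℂ) (fun q => rfl)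
          (fun j => Complex.log ((ξ : ℂ) - ε * g + θ j))
        exact h10.trans hPv)
    have h11 := Pt_val w c (Complex.log (ξ : ℂ)) P hc (A := MvPolynomial (Fin r) ℂ) (fun q => rfl) MvPolynomial.X
    rw [MvPolynomial.aeval_X_left_apply] at h11
    exact hP0 (h11.symm.trans h9)
  rcases S.eq_empty_or_nonempty with rfl | ⟨g0, hg0⟩
  · simp
  obtain ⟨j0, -⟩ := hbad g0 hg0
  have : Nonempty (Fin r) := ⟨j0⟩
  choose! j hj using hbad
  have hε0 : (ε : ℂ) ≠ 0 := by
    rcases hε with rfl | rfl <;> simp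
  have h1 : S.card ≤ ((Finset.univ : Finset (Fin r)) ×ˢ insert 0 X').card := by
    refine Finset.card_le_card_of_injOn (fun g => (j g, θ (j g) - ε * g)) ?_ ?_
    · intro g hg
      rw [Finset.mem_coe, Finset.mem_product]
      exact ⟨Finset.mem_univ _, hj g hg⟩
    · intro g _ g' _ hgg
      simp only [Prod.mk.injEq] at hgg
      have h2 := hgg.2
      rw [hgg.1] at h2
      have h3 : (ε : ℂ) * g = ε * g' := sub_right_injective h2
      have h4 : (g : ℂ) = g' := mul_left_cancel₀ hε0 h3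
      exact_mod_cast h4
  rw [Finset.card_product, Finset.card_univ, Fintype.card_fin] at h1
  refine h1.trans (Nat.mul_le_mul_left _ ?_)
  exact (Finset.card_insert_le _ _).trans (by omega)

end Pool.Agent.Y916.Al
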