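import Pool.Agent.Y916.Al.Ari
import Pool.Agent.Y916.Al.GK
import Pool.Agent.Y916.Win2
import Pool.Agent.Y419.AL.Valc
import Pool.Agent.Y419.AL.Partc

/-!
# Windows around algebraic points
-/

set_option autoImplicit false

open Module

namespace Pool.Agent.Y916.Al

open Pool.Agent.Y916 Pool.Agent.Y916.Hil Pool.Agent.Y916.Gre Pool.Agent.Y916.Low Pool.Agent.Y916.Ari Pool.Agent.Y916.Fld
open Pool.Agent.Y113

theorem t_valc : S_valc := Pool.Agent.Y419.AL.valc_of t_GK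

/-- the values of the functions `∫ z^s / T` are combinations of the logarithms `log (1 + z / ξ)` -/
theorem valc_mem {H a : ℕ} {ξ : ℂ} {T : Polynomial ℤ} {Θ : Finset ℂ} (ha : 1 ≤ a) (hξ : (H : ℝ) + 2 ≤ ‖ξ‖)
    (hT : T.map (Int.castRingHom ℂ) = ∏ z ∈ Θ, (1 - Polynomial.C (-((a : ℂ) * z)) * Polynomial.X))
    (hΘ : ∀ z ∈ Θ, ‖z‖ ≤ H + 1) (hΘ0 : ∀ z ∈ Θ, z ≠ 0) (K : IntermediateField ℚ ℂ)
    (hK : IntermediateField.adjoin ℚ (Θ : Set ℂ) ≤ K) (V : Submodule K ℂ)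
    (hy : ∀ z ∈ Θ, Complex.log (1 + z / ξ) ∈ V) (s : ℕ) (hs : s < Θ.card) :
    evc (1 / ((a : ℂ) * ξ)) (F T s) ∈ V := by
  classical
  have ha0 : (a : ℂ) ≠ 0 := by
    have : a ≠ 0 := by omega
    exact_mod_cast this
  have hH0 : (0 : ℝ) ≤ H := Nat.cast_nonneg H
  have hξpos : 0 < ‖ξ‖ := by linarith
  have hξ0 : ξ ≠ 0 := norm_pos_iff.1 hξpos
  set g : ℂ → ℂ := fun z => -((a : ℂ) * z) with hg
  have hinj : Function.Injective g := by
    intro z z' h
    exact mul_left_cancel₀ ha0 (neg_injective h)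
  have hg0 : (0 : ℂ) ∉ Θ.image g := by
    rw [Finset.mem_image]
    rintro ⟨z, hz, h0⟩
    exact hΘ0 z hz ((mul_eq_zero.1 (neg_eq_zero.1 h0)).resolve_left ha0)
  have hmap : T.map (Int.castRingHom ℂ) = ∏ z ∈ Θ.image g, (1 - Polynomial.C z * Polynomial.X) := by
    rw [hT, Finset.prod_image fun z _ z' _ h => hinj h]
  obtain ⟨b, hb, hsum⟩ := Pool.Agent.Y419.AL.t_partc (Θ.image g) T hg0 hmap s
    (by rwa [Finset.card_image_of_injective _ hinj])
  have hbound : ∀ z ∈ Θ.image g, ‖z‖ * ‖1 / ((a : ℂ) * ξ)‖ < 1 := by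
    intro z' hz'
    obtain ⟨z, hz, rfl⟩ := Finset.mem_image.1 hz'
    rw [hg]
    simp only
    rw [norm_neg, norm_mul, norm_div, norm_one, norm_mul, Complex.norm_natCast]
    have h1 := hΘ z hz
    have h3 : (0 : ℝ) < (a : ℝ) := by
      have : 0 < a := by omega
      exact_mod_cast this
    rw [mul_one_div, div_lt_one (by positivity)]
    exact mul_lt_mul_of_pos_left (by linarith) h3
  rw [hsum _ hbound, Finset.sum_image fun z _ z' _ h => hinj h]
  have hadj : IntermediateField.adjoin ℚ ((Θ.image g : Finset ℂ) : Set ℂ) ≤ K := by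
    rw [IntermediateField.adjoin_le_iff]
    intro z' hz'
    obtain ⟨z, hz, rfl⟩ := Finset.mem_image.1 hz'
    have h1 : z ∈ K := hK (IntermediateField.subset_adjoin ℚ _ hz)
    exact K.neg_mem (K.mul_mem (natCast_mem K a) h1)
  refine Submodule.sum_mem _ fun z hz => ?_
  have hbK : b (g z) ∈ K := hadj (hb _)
  have hlog : Complex.log (1 - g z * (1 / ((a : ℂ) * ξ))) = Complex.log (1 + z / ξ) := by
    congr 1
    rw [hg]
    field_simp
    ring
  rw [hlog]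
  have : b (g z) * Complex.log (1 + z / ξ) = (⟨b (g z), hbK⟩ : K) • Complex.log (1 + z / ξ) := rfl
  rw [this]
  exact Submodule.smul_mem _ _ (hy z hz)

/-- quotients of integers of bounded size, for `1 / (a ξ)` -/
theorem Pt.inv {K : IntermediateField ℚ ℂ} {ξ : K} {X : ℝ} (hX : 0 ≤ X) (hξ : ξ ≠ 0) (h : Pt K ξ X) (a : ℕ) (ha : 1 ≤ a) :
    Pt K (1 / ((a : K) * ξ)) (a * X) := by
  obtain ⟨u, w, hu, hw, hw0, hx, hσ⟩ := h
  have ha0 : (a : K) ≠ 0 := by
    have : a ≠ 0 := by omega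
    exact_mod_cast this
  have hu0 : u ≠ 0 := by
    rintro rfl
    rw [zero_div] at hx
    exact hξ hx
  have haI : IsIntegral ℤ (a : K) := by
    have h1 : ((a : ℤ) : K) = (a : K) := by norm_cast
    rw [← h1, ← eq_intCast (algebraMap ℤ K)]
    exact isIntegral_algebraMap
  have ha1 : (1 : ℝ) ≤ a := by exact_mod_cast ha
  refine ⟨w, (a : K) * u, hw, haI.mul hu, mul_ne_zero ha0 hu0, ?_, fun σ => ⟨?_, ?_⟩⟩
  · rw [hx]
    field_simp
  · exact (hσ σ).2.trans (le_mul_of_one_le_left hX ha1)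
  · rw [map_mul, map_natCast, norm_mul, Complex.norm_natCast]
    exact mul_le_mul_of_nonneg_left (hσ σ).1 (Nat.cast_nonneg a)

theorem windowA (r d δ τ m A : ℕ) : ∃ E : ℕ, ∀ (H : ℕ) (K₁ : IntermediateField ℚ ℂ) (ξ : K₁) (X : ℝ),
    FiniteDimensional ℚ K₁ → finrank ℚ K₁ ≤ m → Pt K₁ ξ X → ((H : ℝ) + 2) ^ E ≤ ‖(ξ : ℂ)‖ → X ≤ ‖(ξ : ℂ)‖ ^ A →
    ∀ K : IntermediateField ℚ ℂ, FiniteDimensional ℚ K → finrank ℚ K ≤ d → ∀ w : Fin τ → ℂ,
    ∃ S : Finset ℂ, S.card ≤ τ ∧ ∀ β : Fin r → ℂ, Function.Injective β → (∀ i, β i ∉ S ∧ β i ≠ 0 ∧ Adm d H (β i)) →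
      ∀ l : Fin r → ℂ, (∀ i, l i - Complex.log (1 + β i / ξ) ∈ Submodule.span K (insert 1 (Set.range w))) →
      ∀ P : MvPolynomial (Fin τ ⊕ Fin r) K, P.totalDegree ≤ δ → MvPolynomial.aeval (Sum.elim w l) P = 0 →
      MvPolynomial.aeval (Sum.elim (fun j => MvPolynomial.C (w j)) MvPolynomial.X) P
        = (0 : MvPolynomial (Fin r) ℂ) := by
  classical
  set q : ℕ := τ + 1 with hq
  set N0 : ℕ := q * r with hN0
  set nm : ℕ := N0 * d with hnm
  set D : ℕ := d * d ^ nm with hD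
  choose Ev hEv using fun n : ℕ => t_valc n (n * Mb D δ q n) m (A + 1)
  set E0 : ℕ := (N0 + 3) * (N0 * d) with hE0
  refine ⟨(E0 + 2) * (∑ n ∈ Finset.range (nm + 1), Ev n) + N0 + 1, ?_⟩
  intro H K₁ ξ X hK₁f hK₁d hPt hξH hXξ K hKf hKd w
  by_contra hcon
  push Not at hcon
  have hH0 : (0 : ℝ) ≤ H := Nat.cast_nonneg H
  have hH1 : (1 : ℝ) ≤ (H : ℝ) + 2 := by linarith
  have hd1 : 1 ≤ d := le_trans (Module.finrank_pos) hKd
  have hξH2 : (H : ℝ) + 2 ≤ ‖(ξ : ℂ)‖ := by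
    refine le_trans ?_ hξH
    exact le_self_pow₀ hH1 (by omega)
  have hξpos : 0 < ‖(ξ : ℂ)‖ := by linarith
  have hξ1 : 1 ≤ ‖(ξ : ℂ)‖ := by linarith
  have hξ0' : (ξ : ℂ) ≠ 0 := norm_pos_iff.1 hξpos
  have hξ0 : ξ ≠ 0 := by
    rintro rfl
    exact hξ0' rfl
  have hX0 : 0 ≤ X := by
    obtain ⟨u, v, -, -, -, -, hσ⟩ := hPt
    exact (norm_nonneg _).trans (hσ (algebraMap K₁ ℂ)).1
  set y : ℂ → ℂ := fun z => Complex.log (1 + z / ξ) with hy
  set V0 : Submodule K ℂ := Submodule.span K (insert (1 : ℂ) (Set.range w)) with hV0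
  obtain ⟨S, B, hS, hSB, hBr, hBa, hrk⟩ := greedy (y := y) (Co := ((V0 ^ δ : Submodule K ℂ) : Set ℂ))
    (Submodule.zero_mem _) (δ := δ) q r (fun z => z ≠ 0 ∧ Adm d H z) (by
      intro S hS
      obtain ⟨β, hinj, hβ, l, hl, P, hP, hP0, hPne⟩ := hcon S (by omega)
      refine ⟨Finset.univ.image β, ?_, ?_, ?_, Qs K w β (fun i => l i - y (β i)) P, ?_,
        Qs_ok K w β _ P hP (fun i => hl i), ?_⟩
      · refine Finset.card_image_le.trans ?_
        simp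
      · intro b hb
        obtain ⟨i, -, rfl⟩ := Finset.mem_image.1 hb
        exact (hβ i).2
      · rw [Finset.disjoint_left]
        intro b hb
        obtain ⟨i, -, rfl⟩ := Finset.mem_image.1 hb
        exact (hβ i).1
      · rw [Qs_eq]
        intro h0
        have h1 := MvPolynomial.rename_injective β hinj (h0.trans (map_zero _).symm)
        exact hPne (shift_inj _ (h1.trans (map_zero _).symm))
      · rw [aeval_Qs]
        have : (fun i => y (β i) + (l i - y (β i))) = l := by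
          funext i
          ring
        rw [this]
        exact hP0)
  obtain ⟨a, T, Θ, ha1, haH, hBΘ, hT0, hTn, hΘc, hTsq, hTH, hTm, hΘa, hΘb, hΘ0⟩ := arith2 d H N0 B hBr
    (fun b hb => (hBa b hb).2) (fun b hb => (hBa b hb).1)
  obtain ⟨K', hKK', hΘK', hK'f, hK'd⟩ := field K hKf d Θ fun z hz => adm_deg (hΘa z hz)
  set n : ℕ := Θ.card with hn
  have hΘc : n ≤ nm := hΘc
  set V : Submodule K' ℂ := Submodule.span K' (insert (1 : ℂ) (Set.range w)) with hV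
  have hD' : finrank ℚ K' ≤ D := hK'd.trans (Nat.mul_le_mul hKd (Nat.pow_le_pow_right hd1 hΘc))
  have hCo : ∀ c ∈ ((V0 ^ δ : Submodule K ℂ) : Set ℂ), c ∈ V ^ δ := by
    intro c hc
    exact pow_field K K' hKK' _ _ subset_rfl δ c hc
  have hV1 : (1 : ℂ) ∈ V := Submodule.subset_span (Set.mem_insert _ _)
  have hub := hrk K' V (Submodule.fg_span ((Set.finite_range w).insert 1)) hV1 hCo Θ hBΘ
  have haR : (1 : ℝ) ≤ a := by exact_mod_cast ha1
  have ha0 : (0 : ℝ) < a := by linarith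
  set x : K₁ := 1 / ((a : K₁) * ξ) with hx
  have hxC : (x : ℂ) = 1 / ((a : ℂ) * ξ) := by
    rw [hx]
    push_cast
    rfl
  have hxn : ‖(x : ℂ)‖ = 1 / (a * ‖(ξ : ℂ)‖) := by
    rw [hxC, norm_div, norm_one, norm_mul, Complex.norm_natCast]
  refine contra K' (τ := τ) hD' w y Θ S (hSB.trans hBΘ) hS rfl
    (fun s : Fin n => evc (x : ℂ) (F T s)) ?_ hub ?_
  · intro s
    rw [hxC]
    refine valc_mem ha1 hξH2 hTm hΘb hΘ0 K' hΘK' (V ⊔ Submodule.span K' (y '' (Θ : Set ℂ))) ?_ s s.2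
    intro z hz
    exact Submodule.mem_sup_right (Submodule.subset_span ⟨z, hz, rfl⟩)
  · intro P hP hP0
    have haξ : (a : ℝ) ≤ ‖(ξ : ℂ)‖ := by
      refine le_trans ?_ hξH
      have h1 : (a : ℝ) ≤ ((H : ℝ) + 2) ^ N0 := by exact_mod_cast haH
      exact h1.trans (pow_le_pow_right₀ hH1 (by omega))
    have hbig : ((((H + 2) ^ E0 : ℕ) : ℝ) + 2) ^ Ev n ≤ ‖(ξ : ℂ)‖ := by
      have h0 : ((H + 2) ^ E0 + 2) ^ Ev n ≤ (H + 2) ^ ((E0 + 2) * (∑ n ∈ Finset.range (nm + 1), Ev n) + N0 + 1) := by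
        calc ((H + 2) ^ E0 + 2) ^ Ev n ≤ ((H + 2) ^ (E0 + 2)) ^ Ev n := by
              refine Nat.pow_le_pow_left ?_ _
              have h1 : 1 ≤ (H + 2) ^ E0 := Nat.one_le_pow _ _ (by omega)
              have h2 : (H + 2) ^ (E0 + 2) = (H + 2) ^ E0 * ((H + 2) * (H + 2)) := by ring
              have h7 : 2 * 2 ≤ (H + 2) * (H + 2) := Nat.mul_le_mul (by omega) (by omega)
              have h8 := Nat.mul_le_mul_left ((H + 2) ^ E0) h7
              rw [h2]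
              omega
          _ = (H + 2) ^ ((E0 + 2) * Ev n) := by rw [← pow_mul]
          _ ≤ _ := by
              refine Nat.pow_le_pow_right (by omega) ?_
              have h3 : Ev n ≤ ∑ n ∈ Finset.range (nm + 1), Ev n :=
                Finset.single_le_sum (f := Ev) (fun i _ => Nat.zero_le _) (Finset.mem_range.2 (by omega))
              have h4 := Nat.mul_le_mul_left (E0 + 2) h3
              omega
      refine le_trans ?_ hξH
      exact_mod_cast h0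
    refine hEv n ((H + 2) ^ E0) T K₁ x (a * X) hK₁f hK₁d ?_ ?_ ?_ ?_ hT0 hTn hTsq hTH P hP hP0
    · intro h0
      have h1 : (x : ℂ) = 0 := by rw [h0]; rfl
      rw [hxC] at h1
      have h2 : (a : ℂ) ≠ 0 := by exact_mod_cast ha0.ne'
      exact one_div_ne_zero (mul_ne_zero h2 hξ0') h1
    · exact Pt.inv hX0 hξ0 hPt a ha1
    · rw [hxn, one_div, inv_mul_le_iff₀ (by positivity), mul_one]
      refine hbig.trans (le_mul_of_one_le_left (norm_nonneg _) haR)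
    · rw [hxn, one_div, inv_pow, ← div_eq_mul_inv, div_le_one (by positivity), mul_pow, pow_succ (a : ℝ) A]
      have h1 : (1 : ℝ) ≤ (a : ℝ) ^ A := one_le_pow₀ haR
      have h2 : ‖(ξ : ℂ)‖ ^ A ≤ ‖(ξ : ℂ)‖ ^ (A + 1) := pow_le_pow_right₀ hξ1 (by omega)
      calc (a : ℝ) * X ≤ a * ‖(ξ : ℂ)‖ ^ (A + 1) := mul_le_mul_of_nonneg_left (hXξ.trans h2) ha0.le
        _ = 1 * a * ‖(ξ : ℂ)‖ ^ (A + 1) := by ring
        _ ≤ (a : ℝ) ^ A * a * ‖(ξ : ℂ)‖ ^ (A + 1) := by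
            refine mul_le_mul_of_nonneg_right (mul_le_mul_of_nonneg_right h1 ha0.le) (by positivity)

end Pool.Agent.Y916.Al
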