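import Pool.Agent.Y916.Al.Win
import Pool.Agent.Y916.Om.Bas

/-!
# Windows around algebraic points: one exceptional set for all number fields, constants of bounded transcendence degree
-/

set_option autoImplicit false

open Module

namespace Pool.Agent.Y916.Al

open Pool.Agent.Y916.Ari Pool.Agent.Y916.Fld
open Pool.Agent.Y916.Om

theorem windowH (r d δ τ A B m Ah : ℕ) : ∃ E : ℕ, ∀ (H : ℕ) (K₁ : IntermediateField ℚ ℂ) (ξ : K₁) (X : ℝ),
    FiniteDimensional ℚ K₁ → finrank ℚ K₁ ≤ m → Pt K₁ ξ X → ((H : ℝ) + 2) ^ E ≤ ‖(ξ : ℂ)‖ → X ≤ ‖(ξ : ℂ)‖ ^ Ah →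
    ∀ (υ : Type) [Fintype υ] (w : υ → ℂ) (T : Finset υ), T.card = τ → Dom A B w T →
    ∃ S : Finset ℂ, S.card ≤ τ ∧ ∀ β : Fin r → ℂ, Function.Injective β → (∀ i, β i ∉ S ∧ β i ≠ 0 ∧ Adm d H (β i)) →
      ∀ K : IntermediateField ℚ ℂ, FiniteDimensional ℚ K → finrank ℚ K ≤ d →
      ∀ l : Fin r → ℂ, (∀ i, ∃ a : K, a ≠ 0 ∧ l i - a * Complex.log (1 + β i / ξ) ∈
        Submodule.span K (insert 1 (Set.range w))) →
      ∀ P : MvPolynomial (υ ⊕ Fin r) K, P.totalDegree ≤ δ → MvPolynomial.aeval (Sum.elim w l) P = 0 →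
      MvPolynomial.aeval (Sum.elim (fun j => MvPolynomial.C (w j)) MvPolynomial.X) P
        = (0 : MvPolynomial (Fin r) ℂ) := by
  classical
  set q : ℕ := τ + 1 with hq
  set N0 : ℕ := q * r with hN0
  set nm : ℕ := N0 * d with hnm
  set D : ℕ := (d + 1) ^ q * (d + 1) ^ nm with hD
  set Dg : ℕ → ℕ := fun n => n * (D * (δ ^ (τ + 1) * A) * ((B + 1) * (2 * δ + 1) ^ (τ + 1) * n) ^ (n - 1)) with hDg
  choose Ev hEv using fun n : ℕ => t_valc n (Dg n) m (Ah + 1)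
  set E0 : ℕ := (N0 + 3) * (N0 * d) with hE0
  refine ⟨(E0 + 2) * (∑ n ∈ Finset.range (nm + 1), Ev n) + N0 + 1, ?_⟩
  intro H K₁ ξ X hK₁f hK₁d hPt hξH hXξ υ _ w T hTc hAB
  by_contra hcon
  push Not at hcon
  have hH0 : (0 : ℝ) ≤ H := Nat.cast_nonneg H
  have hH1 : (1 : ℝ) ≤ (H : ℝ) + 2 := by linarith
  have hξH2 : (H : ℝ) + 2 ≤ ‖(ξ : ℂ)‖ := by
    refine le_trans ?_ hξH
    exact le_self_pow₀ hH1 (by omega)
  have hξpos : 0 < ‖(ξ : ℂ)‖ := by linarith
  have hξ1 : 1 ≤ ‖(ξ : ℂ)‖ := by linarith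
  have hξ0' : (ξ : ℂ) ≠ 0 := norm_pos_iff.1 hξpos
  have hξ0 : ξ ≠ 0 := by
    rintro rfl
    exact hξ0' rfl
  have hX0 : 0 ≤ X := by
    obtain ⟨u, v, -, -, -, -, hσ⟩ := hPt
    exact (norm_nonneg _).trans (hσ (algebraMap K₁ ℂ)).1
  set y : ℂ → ℂ := fun z => Complex.log (1 + z / ξ) with hy
  set Co : {K : IntermediateField ℚ ℂ // FiniteDimensional ℚ K ∧ finrank ℚ K ≤ d} → Set ℂ := fun K =>
    ((Submodule.span K.1 (insert (1 : ℂ) (Set.range w)) ^ δ : Submodule K.1 ℂ) : Set ℂ) with hCo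
  obtain ⟨S, Bs, J, hS, hSB, hBr, hIr, hBa, hrk⟩ := greedyU (y := y) (Co := Co)
    (fun K => Submodule.zero_mem _) (δ := δ) q r (fun z => z ≠ 0 ∧ Adm d H z) (by
      intro S hS
      obtain ⟨β, hinj, hβ, K, hKf, hKd, l, hl, P, hP, hP0, hPne⟩ := hcon S (by omega)
      choose a ha hla using hl
      refine ⟨Finset.univ.image β, ?_, ?_, ?_, ⟨K, hKf, hKd⟩, Qh K w β a (fun i => l i - a i * y (β i)) P, ?_,
        Qh_ok K w β a _ P hP hla, ?_⟩
      · refine Finset.card_image_le.trans ?_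
        simp
      · intro b hb
        obtain ⟨i, -, rfl⟩ := Finset.mem_image.1 hb
        exact (hβ i).2
      · rw [Finset.disjoint_left]
        intro b hb
        obtain ⟨i, -, rfl⟩ := Finset.mem_image.1 hb
        exact (hβ i).1
      · rw [Qh_eq]
        intro h0
        have h1 := MvPolynomial.rename_injective β hinj (h0.trans (map_zero _).symm)
        exact hPne (shift_injh K a _ ha (h1.trans (map_zero _).symm))
      · rw [aeval_Qh]
        have : (fun i => (a i : ℂ) * y (β i) + (l i - a i * y (β i))) = l := by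
          funext i
          ring
        rw [this]
        exact hP0)
  obtain ⟨L, hLf, hLd, hL⟩ := compositum J
  obtain ⟨a, T', Θ, ha1, haH, hBΘ, hT0, hTn, hΘc, hTsq, hTH, hTm, hΘa, hΘb, hΘ0⟩ := arith2 d H N0 Bs hBr
    (fun b hb => (hBa b hb).2) (fun b hb => (hBa b hb).1)
  obtain ⟨K', hKK', hΘK', hK'f, hK'd⟩ := Pool.Agent.Y916.Fld.field L hLf d Θ fun z hz => adm_deg (hΘa z hz)
  set n : ℕ := Θ.card with hn
  have hΘc : n ≤ nm := hΘc
  set V : Submodule K' ℂ := Submodule.span K' (insert (1 : ℂ) (Set.range w)) with hV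
  have hD' : finrank ℚ K' ≤ D := by
    refine hK'd.trans (Nat.mul_le_mul ?_ ?_)
    · refine hLd.trans ((Nat.pow_le_pow_left (Nat.le_succ d) _).trans ?_)
      exact Nat.pow_le_pow_right (Nat.succ_pos d) hIr
    · exact (Nat.pow_le_pow_left (Nat.le_succ d) _).trans (Nat.pow_le_pow_right (Nat.succ_pos d) hΘc)
  have hV1 : (1 : ℂ) ∈ V := Submodule.subset_span (Set.mem_insert _ _)
  have hub := hrk K' V (Submodule.fg_span ((Set.finite_range w).insert 1)) hV1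
    (fun K hK c hc => span_pow_field ((hL K hK).trans hKK') hc) Θ hBΘ
  have haR : (1 : ℝ) ≤ a := by exact_mod_cast ha1
  have ha0 : (0 : ℝ) < a := by linarith
  set x : K₁ := 1 / ((a : K₁) * ξ) with hx
  have hxC : (x : ℂ) = 1 / ((a : ℂ) * ξ) := by
    rw [hx]
    push_cast
    rfl
  have hxn : ‖(x : ℂ)‖ = 1 / (a * ‖(ξ : ℂ)‖) := by
    rw [hxC, norm_div, norm_one, norm_mul, Complex.norm_natCast]
  refine contra' (A := A) (B := B) (δ := δ) K' hD' w T ?_ y Θ S (hSB.trans hBΘ) (by rw [hS, hTc]) rfl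
    (fun s : Fin n => evc (x : ℂ) (F T' s)) ?_ (by rw [hTc]; exact hub) ?_
  · intro W h1 h2 h3 Δ
    rw [Finset.coe_univ, Set.image_univ]
    exact hAB K' W h1 h2 h3 Δ
  · intro s
    rw [hxC]
    refine valc_mem ha1 hξH2 hTm hΘb hΘ0 K' hΘK' (V ⊔ Submodule.span K' (y '' (Θ : Set ℂ))) ?_ s s.2
    intro z hz
    exact Submodule.mem_sup_right (Submodule.subset_span ⟨z, hz, rfl⟩)
  · intro P hP hP0
    rw [hTc] at hP
    have haξ : (a : ℝ) ≤ ‖(ξ : ℂ)‖ := by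
      refine le_trans ?_ hξH
      have h1 : (a : ℝ) ≤ ((H : ℝ) + 2) ^ N0 := by exact_mod_cast haH
      exact h1.trans (pow_le_pow_right₀ hH1 (by omega))
    have hbig : ((((H + 2) ^ E0 : ℕ) : ℝ) + 2) ^ Ev n ≤ ‖(ξ : ℂ)‖ := by
      have h0 : ((H + 2) ^ E0 + 2) ^ Ev n ≤ (H + 2) ^ ((E0 + 2) * (∑ n ∈ Finset.range (nm + 1), Ev n) + N0 + 1) := by
        calc ((H + 2) ^ E0 + 2) ^ Ev n ≤ ((H + 2) ^ (E0 + 2)) ^ Ev n := by
              refine Nat.pow_le_pow_left ?_ _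
              have h1 : 1 ≤ (H + 2) ^ E0 := Nat.one_le_pow _ _ (by omega)
              have h2 : (H + 2) ^ (E0 + 2) = (H + 2) ^ E0 * ((H + 2) * (H + 2)) := by ring
              have h7 : 2 * 2 ≤ (H + 2) * (H + 2) := Nat.mul_le_mul (by omega) (by omega)
              have h8 := Nat.mul_le_mul_left ((H + 2) ^ E0) h7
              rw [h2]
              omega
          _ = (H + 2) ^ ((E0 + 2) * Ev n) := by rw [← pow_mul]
          _ ≤ _ := by
              refine Nat.pow_le_pow_right (by omega) ?_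
              have h3 : Ev n ≤ ∑ n ∈ Finset.range (nm + 1), Ev n :=
                Finset.single_le_sum (f := Ev) (fun i _ => Nat.zero_le _) (Finset.mem_range.2 (by omega))
              have h4 := Nat.mul_le_mul_left (E0 + 2) h3
              omega
      refine le_trans ?_ hξH
      exact_mod_cast h0
    refine hEv n ((H + 2) ^ E0) T' K₁ x (a * X) hK₁f hK₁d ?_ ?_ ?_ ?_ hT0 hTn hTsq hTH P hP hP0
    · intro h0
      have h1 : (x : ℂ) = 0 := by rw [h0]; rfl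
      rw [hxC] at h1
      have h2 : (a : ℂ) ≠ 0 := by exact_mod_cast ha0.ne'
      exact one_div_ne_zero (mul_ne_zero h2 hξ0') h1
    · exact Pt.inv hX0 hξ0 hPt a ha1
    · rw [hxn, one_div, inv_mul_le_iff₀ (by positivity), mul_one]
      refine hbig.trans (le_mul_of_one_le_left (norm_nonneg _) haR)
    · rw [hxn, one_div, inv_pow, ← div_eq_mul_inv, div_le_one (by positivity), mul_pow, pow_succ (a : ℝ) Ah]
      have h1 : (1 : ℝ) ≤ (a : ℝ) ^ Ah := one_le_pow₀ haR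
      have h2 : ‖(ξ : ℂ)‖ ^ Ah ≤ ‖(ξ : ℂ)‖ ^ (Ah + 1) := pow_le_pow_right₀ hξ1 (by omega)
      calc (a : ℝ) * X ≤ a * ‖(ξ : ℂ)‖ ^ (Ah + 1) := mul_le_mul_of_nonneg_left (hXξ.trans h2) ha0.le
        _ = 1 * a * ‖(ξ : ℂ)‖ ^ (Ah + 1) := by ring
        _ ≤ (a : ℝ) ^ Ah * a * ‖(ξ : ℂ)‖ ^ (Ah + 1) := by
            refine mul_le_mul_of_nonneg_right (mul_le_mul_of_nonneg_right h1 ha0.le) (by positivity)

/-- a root of an integer polynomial of bounded height is a quotient of integers of bounded size -/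
theorem pt_root {m : ℕ} {Y : ℝ} {ξ : ℂ} {p : Polynomial ℤ} (hp0 : p ≠ 0) (hpd : p.natDegree ≤ m)
    (hpY : ∀ j, |(p.coeff j : ℝ)| ≤ Y) (hp : Polynomial.aeval ξ p = 0) :
    ∃ (K₁ : IntermediateField ℚ ℂ) (ξ' : K₁), FiniteDimensional ℚ K₁ ∧ finrank ℚ K₁ ≤ m ∧ (ξ' : ℂ) = ξ ∧
      Pt K₁ ξ' (Y * (Y + 2)) := by
  obtain ⟨N, hN⟩ := exists_nat_ge Y
  have hY1 : 1 ≤ Y := by
    have h1 : p.leadingCoeff ≠ 0 := Polynomial.leadingCoeff_ne_zero.2 hp0
    have h2 : (1 : ℝ) ≤ |(p.leadingCoeff : ℝ)| := by exact_mod_cast Int.one_le_abs h1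
    exact h2.trans (hpY _)
  have hadm : Adm m ⌊Y⌋₊ ξ := by
    refine ⟨p, hp0, hpd, fun l => ?_, hp⟩
    have h1 : ((|p.coeff l| : ℤ) : ℝ) ≤ Y := by push_cast; exact hpY l
    have h2 : (p.coeff l).natAbs ≤ ⌊Y⌋₊ := by
      apply Nat.le_floor
      rw [Nat.cast_natAbs]
      exact h1
    rw [Int.abs_eq_natAbs]
    exact_mod_cast h2
  obtain ⟨hint, hdeg⟩ := adm_deg hadm
  set K₁ : IntermediateField ℚ ℂ := IntermediateField.adjoin ℚ {ξ} with hK₁
  have hfd : FiniteDimensional ℚ K₁ := IntermediateField.adjoin.finiteDimensional hint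
  set ξ' : K₁ := ⟨ξ, IntermediateField.mem_adjoin_simple_self ℚ ξ⟩ with hξ'
  refine ⟨K₁, ξ', hfd, ?_, rfl, ?_⟩
  · rw [hK₁, IntermediateField.adjoin.finrank hint]
    exact hdeg
  · have hK : (p.leadingCoeff : K₁) ≠ 0 := by
      have h1 : p.leadingCoeff ≠ 0 := Polynomial.leadingCoeff_ne_zero.2 hp0
      exact_mod_cast h1
    have hp' : Polynomial.aeval ξ' p = 0 := by
      have h1 := Polynomial.aeval_algebraMap_apply ℂ ξ' p
      have h2 : algebraMap K₁ ℂ ξ' = ξ := rfl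
      rw [h2, hp] at h1
      exact (algebraMap K₁ ℂ).injective (h1.symm.trans (map_zero _).symm)
    have hlc : IsIntegral ℤ ((p.leadingCoeff : ℤ) • ξ') := isIntegral_leadingCoeff_smul _ _ hp'
    rw [zsmul_eq_mul] at hlc
    refine ⟨(p.leadingCoeff : K₁) * ξ', p.leadingCoeff, hlc, ?_, hK, ?_, fun σ => ⟨?_, ?_⟩⟩
    · rw [← eq_intCast (algebraMap ℤ K₁)]
      exact isIntegral_algebraMap
    · rw [mul_div_cancel_left₀ _ hK]
    · rw [map_mul, map_intCast, norm_mul, Complex.norm_intCast]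
      refine mul_le_mul (hpY _) ?_ (norm_nonneg _) (by linarith)
      have h1 : Polynomial.aeval (σ ξ') p = 0 := by
        have h2 := congrArg σ hp'
        rw [map_zero] at h2
        rw [← h2, Polynomial.aeval_def, Polynomial.aeval_def, Polynomial.hom_eval₂]
        congr 1
        exact RingHom.ext_int _ _
      have h2 : ‖σ ξ'‖ ≤ (⌊Y⌋₊ : ℝ) + 1 := by
        refine root_bound hp0 (fun l => ?_) h1
        have h1 : ((|p.coeff l| : ℤ) : ℝ) ≤ Y := by push_cast; exact hpY l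
        have h2 : (p.coeff l).natAbs ≤ ⌊Y⌋₊ := by
          apply Nat.le_floor
          rw [Nat.cast_natAbs]
          exact h1
        rw [Int.abs_eq_natAbs]
        exact_mod_cast h2
      have h3 : (⌊Y⌋₊ : ℝ) ≤ Y := Nat.floor_le (by linarith)
      linarith
    · rw [map_intCast, Complex.norm_intCast]
      calc |(p.leadingCoeff : ℝ)| ≤ Y := hpY _
        _ = Y * 1 := (mul_one Y).symm
        _ ≤ Y * (Y + 2) := mul_le_mul_of_nonneg_left (by linarith) (by linarith)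

end Pool.Agent.Y916.Al
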